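import Mathlib

set_option autoImplicit false

open Polynomial

namespace Pool.Agent.H17Sv

/-- integrality of a polynomial value from the values at the roots -/
theorem integral_of_roots {D K L B : Type*} [CommRing D] [Field K] [Algebra D K] [Field L]
    [IsAlgClosed L] [Algebra K L] [Algebra D L] [IsScalarTower D K L] [Ring B] [Algebra K B]
    [Algebra D B] [IsScalarTower D K B] (χ : D[X]) (hχ : χ.Monic) (x : B) (hx : aeval x χ = 0)
    (f : K[X]) (h : ∀ r : L, aeval r χ = 0 → IsIntegral D (aeval r f)) :
    IsIntegral D (aeval x f) := by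
  classical
  set χL := χ.map (algebraMap D L) with hχL
  have hχLm : χL.Monic := hχ.map _
  have h' : ∀ r : L, ∃ φ : D[X], r ∈ χL.roots → φ.Monic ∧ aeval (aeval r f) φ = 0 := by
    intro r
    by_cases hr : r ∈ χL.roots
    · rw [mem_roots hχLm.ne_zero, IsRoot, hχL, eval_map_algebraMap] at hr
      obtain ⟨φ, h1, h2⟩ := h r hr
      exact ⟨φ, fun _ => ⟨h1, h2⟩⟩
    · exact ⟨0, fun h => absurd h hr⟩
  choose φ hφ using h'
  set Φ : D[X] := (χL.roots.map φ).prod with hΦ
  have hΦm : Φ.Monic := monic_multiset_prod_of_monic _ _ fun r hr => (hφ r hr).1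
  set fL : L[X] := f.map (algebraMap K L) with hfL
  have h1 : χL ∣ aeval fL Φ := by
    have h2 : χL = (χL.roots.map fun a => X - C a).prod := by
      have := (IsAlgClosed.splits χL).eq_prod_roots
      rw [hχLm.leadingCoeff, C_1, one_mul] at this
      exact this
    rw [hΦ, map_multiset_prod, Multiset.map_map]
    nth_rw 1 [h2]
    apply Multiset.prod_dvd_prod_of_dvd
    intro r hr
    rw [dvd_iff_isRoot, IsRoot, Function.comp_apply]
    have h3 := (hφ r hr).2
    rw [← h3, ← coe_aeval_eq_eval]
    have h4 : aeval r fL = aeval r f := by rw [hfL, aeval_map_algebraMap]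
    rw [← h4, ← AlgHom.restrictScalars_apply D (aeval r : L[X] →ₐ[L] L) (aeval fL (φ r)),
      ← aeval_algHom_apply]
    rfl
  have h2 : aeval fL Φ = (aeval f Φ).map (algebraMap K L) := by
    have e : (mapAlgHom (Algebra.ofId K L) : K[X] →ₐ[K] L[X]) f = fL := by
      rw [hfL]; rfl
    have e2 := aeval_algHom_apply ((mapAlgHom (Algebra.ofId K L) : K[X] →ₐ[K] L[X]).restrictScalars D) f Φ
    rw [AlgHom.restrictScalars_apply, AlgHom.restrictScalars_apply, e] at e2
    rw [e2]
    rfl
  have h3 : χ.map (algebraMap D K) ∣ aeval f Φ := by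
    rw [← map_dvd_map (algebraMap K L) (algebraMap K L).injective (hχ.map _), map_map,
      ← IsScalarTower.algebraMap_eq, ← h2]
    exact h1
  refine ⟨Φ, hΦm, ?_⟩
  change aeval (aeval x f) Φ = 0
  have h4 : aeval (aeval x f) Φ = aeval x (aeval f Φ) := by
    rw [← AlgHom.restrictScalars_apply D (aeval x : K[X] →ₐ[K] B) (aeval f Φ),
      ← aeval_algHom_apply]
    rfl
  rw [h4]
  obtain ⟨q, hq⟩ := h3
  rw [hq, map_mul, aeval_map_algebraMap, hx, zero_mul]

/-- the valuation criterion of integrality -/
theorem integral_of_val {D L : Type*} [CommRing D] [Field L] [Algebra D L] (y : L)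
    (h : ∀ W : ValuationSubring L, (∀ d : D, algebraMap D L d ∈ W) → y ∈ W) : IsIntegral D y := by
  by_contra hy
  have h1 : y ∉ (integralClosure D L).toSubring := hy
  have : IsIntegrallyClosedIn (integralClosure D L).toSubring L :=
    inferInstanceAs (IsIntegrallyClosedIn (integralClosure D L) L)
  obtain ⟨V, hV1, hV2⟩ := Subring.exists_le_valuationSubring_of_isIntegrallyClosedIn h1
  exact hV2 (h V fun d => hV1 (isIntegral_algebraMap (R := D) (A := L) (x := d)))

/-- the local data at a prime whose localization is a discrete valuation ring -/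
theorem local_data {D : Type*} [CommRing D] [IsDomain D] (P : Ideal D) [P.IsPrime]
    [IsDiscreteValuationRing (Localization.AtPrime P)] :
    ∃ w ∈ P, (∀ d : D, d ≠ 0 → ∃ (k : ℕ) (a s : D), a ∉ P ∧ s ∉ P ∧ s * d = a * w ^ k) ∧
      ∀ (d : D) (c : ℕ), algebraMap D (Localization.AtPrime P) d ∉
        IsLocalRing.maximalIdeal (Localization.AtPrime P) ^ (c + 1) →
        ∀ (k : ℕ) (a s : D), s ∉ P → s * d = a * w ^ k → k ≤ c := by
  have hinj : Function.Injective (algebraMap D (Localization.AtPrime P)) :=
    IsLocalization.injective _ P.primeCompl_le_nonZeroDivisors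
  obtain ⟨w', hw'⟩ := IsDiscreteValuationRing.exists_irreducible (Localization.AtPrime P)
  obtain ⟨⟨w, t⟩, hwt⟩ := IsLocalization.mk'_surjective P.primeCompl w'
  have ht : IsUnit (algebraMap D (Localization.AtPrime P) t) :=
    IsLocalization.map_units _ t
  have hw1 : algebraMap D (Localization.AtPrime P) w = w' * algebraMap D _ t := by
    rw [← hwt]; exact (IsLocalization.mk'_spec _ _ _).symm
  have hwirr : Irreducible (algebraMap D (Localization.AtPrime P) w) := by
    rw [hw1]
    exact (irreducible_mul_isUnit ht).2 hw'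
  have hwm : algebraMap D (Localization.AtPrime P) w ∈
      IsLocalRing.maximalIdeal (Localization.AtPrime P) :=
    (IsLocalRing.mem_maximalIdeal _).2 hwirr.not_isUnit
  refine ⟨w, ?_, ?_, ?_⟩
  · exact (IsLocalization.AtPrime.to_map_mem_maximal_iff (Localization.AtPrime P) P w).1 hwm
  · intro d hd
    have hd' : algebraMap D (Localization.AtPrime P) d ≠ 0 := by
      rw [Ne, map_eq_zero_iff _ hinj]; exact hd
    obtain ⟨k, u, hu⟩ := IsDiscreteValuationRing.associated_pow_irreducible hd' hwirr
    obtain ⟨⟨a, s⟩, has⟩ := IsLocalization.mk'_surjective P.primeCompl ((u⁻¹ : (Localization.AtPrime P)ˣ) : Localization.AtPrime P)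
    have hs : (s : D) ∉ P := s.2
    have hau : algebraMap D (Localization.AtPrime P) a = (u⁻¹ : (Localization.AtPrime P)ˣ) * algebraMap D _ s := by
      rw [← has]; exact (IsLocalization.mk'_spec _ _ _).symm
    refine ⟨k, a, s, ?_, hs, ?_⟩
    · intro haP
      have h1 : IsUnit (algebraMap D (Localization.AtPrime P) a) := by
        rw [hau]; exact (Units.isUnit _).mul (IsLocalization.map_units _ s)
      exact (IsLocalRing.mem_maximalIdeal _).1 ((IsLocalization.AtPrime.to_map_mem_maximal_iff (Localization.AtPrime P) P a).2 haP) h1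
    · apply hinj
      rw [map_mul, map_mul, map_pow, hau, ← hu]
      have : (u⁻¹ : (Localization.AtPrime P)ˣ) * (u : Localization.AtPrime P) = 1 := Units.inv_mul u
      calc _ = ((u⁻¹ : (Localization.AtPrime P)ˣ) * (u : Localization.AtPrime P)) * (algebraMap D _ s * algebraMap D _ d) := by rw [this, one_mul]
        _ = _ := by ring
  · intro d c hd k a s hs hk
    by_contra hlt
    push Not at hlt
    apply hd
    have h1 : algebraMap D (Localization.AtPrime P) s * algebraMap D _ d ∈
        IsLocalRing.maximalIdeal (Localization.AtPrime P) ^ (c + 1) := by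
      rw [← map_mul, hk, map_mul, map_pow]
      apply Ideal.mul_mem_left
      exact Ideal.pow_le_pow_right hlt (Ideal.pow_mem_pow hwm k)
    obtain ⟨u, hu⟩ := IsLocalization.map_units (Localization.AtPrime P) (⟨s, hs⟩ : P.primeCompl)
    have h2 := Ideal.mul_mem_left _ ((u⁻¹ : (Localization.AtPrime P)ˣ) : Localization.AtPrime P) h1
    rw [← mul_assoc] at h2
    have h3 : ((u⁻¹ : (Localization.AtPrime P)ˣ) : Localization.AtPrime P) * algebraMap D _ s = 1 := by
      have : algebraMap D (Localization.AtPrime P) s = u := hu.symm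
      rw [this]; exact Units.inv_mul u
    rwa [h3, one_mul] at h2

end Pool.Agent.H17Sv
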