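import Mathlib

set_option autoImplicit false
set_option linter.unusedSectionVars false
set_option linter.unusedVariables false

open Polynomial

namespace Pool.Agent.H17Sv

variable {D K L Γ : Type*} [CommRing D] [IsDomain D] [Field K] [Algebra D K] [IsFractionRing D K]
  [Field L] [Algebra K L] [Algebra D L] [IsScalarTower D K L] [LinearOrderedCommGroupWithZero Γ]

theorem exists_pow_eq (v : Valuation L Γ) (z : L) (hz : z ≠ 0) (g : K[X]) (hg : g ≠ 0)
    (hgz : aeval z g = 0) :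
    ∃ i, 1 ≤ i ∧ i ≤ g.natDegree ∧ ∃ x : K, x ≠ 0 ∧ v z ^ i = v (algebraMap K L x) := by
  classical
  set T : ℕ → L := fun j => algebraMap K L (g.coeff j) * z ^ j with hT
  have hsum : ∑ j ∈ g.support, T j = 0 := by
    rw [← hgz, aeval_def, eval₂_eq_sum, sum_def]
  obtain ⟨j0, hj0, hmax⟩ := Finset.exists_max_image g.support (fun j => v (T j))
    (by rwa [Finset.nonempty_iff_ne_empty, Ne, support_eq_empty])
  have hTne : ∀ j ∈ g.support, v (T j) ≠ 0 := by
    intro j hj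
    rw [Valuation.ne_zero_iff, hT]
    refine mul_ne_zero ?_ (pow_ne_zero _ hz)
    rw [Ne, map_eq_zero]
    exact mem_support_iff.1 hj
  have hex : ∃ j1 ∈ g.support, j1 ≠ j0 ∧ v (T j1) = v (T j0) := by
    by_contra hcon
    push Not at hcon
    have h1 : T j0 = - ∑ j ∈ g.support.erase j0, T j := by
      have := Finset.add_sum_erase g.support T hj0
      rw [hsum] at this
      linear_combination this
    have h2 : v (∑ j ∈ g.support.erase j0, T j) < v (T j0) :=
      v.map_sum_lt (hTne j0 hj0) fun j hj =>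
        lt_of_le_of_ne (hmax j (Finset.mem_of_mem_erase hj))
          (hcon j (Finset.mem_of_mem_erase hj) (Finset.ne_of_mem_erase hj))
    rw [h1, Valuation.map_neg] at h2
    exact lt_irrefl _ h2
  obtain ⟨j1, hj1, hne, heq⟩ := hex
  have main : ∀ a b : ℕ, a ∈ g.support → b ∈ g.support → a < b → v (T a) = v (T b) →
      ∃ i, 1 ≤ i ∧ i ≤ g.natDegree ∧ ∃ x : K, x ≠ 0 ∧ v z ^ i = v (algebraMap K L x) := by
    intro a b ha hb hab h
    have hca : g.coeff a ≠ 0 := mem_support_iff.1 ha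
    have hcb : g.coeff b ≠ 0 := mem_support_iff.1 hb
    refine ⟨b - a, by omega, (Nat.sub_le _ _).trans (le_natDegree_of_ne_zero hcb),
      g.coeff a / g.coeff b, div_ne_zero hca hcb, ?_⟩
    have hzv : v z ≠ 0 := (Valuation.ne_zero_iff _).2 hz
    have hcbv : v (algebraMap K L (g.coeff b)) ≠ 0 := by
      rw [Valuation.ne_zero_iff, Ne, map_eq_zero]; exact hcb
    rw [map_div₀, map_div₀, eq_div_iff hcbv]
    simp only [hT, map_mul, map_pow] at h
    have h2 : v z ^ b = v z ^ (b - a) * v z ^ a := by rw [← pow_add]; congr 1; omega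
    rw [h2, ← mul_assoc] at h
    have h3 := mul_right_cancel₀ (pow_ne_zero a hzv) h
    rw [h3, mul_comm]
  rcases lt_or_gt_of_ne hne with h | h
  · exact main j1 j0 hj1 hj0 h heq
  · exact main j0 j1 hj0 hj1 h heq.symm

/-- the values of the elements of `K` -/
theorem val_K (v : Valuation L Γ) (p w : D) (e C : ℕ) (he : 1 ≤ e) (heC : e ≤ C)
    (hw0 : v (algebraMap D L w) ≠ 0)
    (hp : v (algebraMap D L p) = v (algebraMap D L w) ^ e)
    (hd : ∀ d : D, d ≠ 0 → ∃ k : ℕ, v (algebraMap D L d) = v (algebraMap D L w) ^ k)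
    (x : K) (hx : x ≠ 0) : ∃ a : ℤ, v (algebraMap K L x) ^ (C.factorial) =
      v (algebraMap D L p) ^ a := by
  obtain ⟨d1, d2, hd2, rfl⟩ := IsFractionRing.div_surjective (A := D) x
  have hd2' : d2 ≠ 0 := nonZeroDivisors.ne_zero hd2
  have hd1' : d1 ≠ 0 := by
    rintro rfl
    simp at hx
  obtain ⟨k1, hk1⟩ := hd d1 hd1'
  obtain ⟨k2, hk2⟩ := hd d2 hd2'
  obtain ⟨m, hm⟩ : e ∣ C.factorial := Nat.dvd_factorial he heC
  refine ⟨((k1 : ℤ) - k2) * m, ?_⟩
  rw [map_div₀, ← IsScalarTower.algebraMap_apply, ← IsScalarTower.algebraMap_apply, map_div₀, hk1,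
    hk2, hp, ← zpow_natCast (v (algebraMap D L w)) k1, ← zpow_natCast (v (algebraMap D L w)) k2,
    ← zpow_natCast (v (algebraMap D L w)) e,
    ← zpow_sub₀ hw0, ← zpow_natCast, ← zpow_mul, ← zpow_mul, hm]
  congr 1
  push_cast
  ring

theorem val_z (v : Valuation L Γ) (p w : D) (e C n : ℕ) (he : 1 ≤ e) (heC : e ≤ C)
    (hw0 : v (algebraMap D L w) ≠ 0)
    (hp : v (algebraMap D L p) = v (algebraMap D L w) ^ e) (hp1 : v (algebraMap D L p) < 1)
    (hd : ∀ d : D, d ≠ 0 → ∃ k : ℕ, v (algebraMap D L d) = v (algebraMap D L w) ^ k)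
    (z : L) (hz : z ≠ 0) (hzi : IsIntegral K z) (hzn : (minpoly K z).natDegree ≤ n)
    (hz1 : v z ≤ 1) :
    ∃ a : ℕ, v z ^ (n.factorial * C.factorial) = v (algebraMap D L p) ^ a := by
  obtain ⟨i, hi1, hi2, x, hx, hzx⟩ := exists_pow_eq v z hz (minpoly K z) (minpoly.ne_zero hzi)
    (minpoly.aeval K z)
  obtain ⟨a, ha⟩ := val_K v p w e C he heC hw0 hp hd x hx
  obtain ⟨m, hm⟩ : i ∣ n.factorial := Nat.dvd_factorial hi1 (hi2.trans hzn)
  have h1 : v z ^ (n.factorial * C.factorial) = v (algebraMap D L p) ^ (a * m) := by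
    rw [hm, mul_assoc, pow_mul, hzx, mul_comm m, pow_mul, ha, ← zpow_natCast, ← zpow_mul]
  have h2 : v z ^ (n.factorial * C.factorial) ≤ 1 := pow_le_one' hz1 _
  obtain ⟨b, hb | hb⟩ := (a * m).eq_nat_or_neg
  · exact ⟨b, by rw [h1, hb, zpow_natCast]⟩
  · refine ⟨0, ?_⟩
    rw [hb, zpow_neg, zpow_natCast] at h1
    have h3 : v (algebraMap D L p) ^ b ≤ 1 := pow_le_one' hp1.le _
    have hp0 : v (algebraMap D L p) ≠ 0 := by rw [hp]; exact pow_ne_zero _ hw0
    have h4 : 0 < v (algebraMap D L p) ^ b := zero_lt_iff.2 (pow_ne_zero _ hp0)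
    have h5 : 1 ≤ (v (algebraMap D L p) ^ b)⁻¹ := (one_le_inv₀ h4).2 h3
    rw [pow_zero]
    rw [h1] at h2 ⊢
    exact le_antisymm h2 h5

/-- growth of the divisibility by powers -/
theorem growth (v : Valuation L Γ) (l : ℕ) (hl : 2 ≤ l) (δ : Γ) (hδ : δ ≤ 1)
    (hlv : v (l : L) ≤ δ) (x : L) (hx : v (x - 1) ≤ δ) (t : ℕ) :
    v (x ^ (l ^ t) - 1) ≤ δ ^ (t + 1) := by
  induction t with
  | zero => simpa using hx
  | succ t ih =>
    set y := x ^ (l ^ t) with hy
    have hyd : v (y - 1) ≤ δ := ih.trans (by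
      rw [pow_succ]; exact mul_le_of_le_one_left' (pow_le_one' hδ t))
    have hyv : v y ≤ 1 := by
      have : y = (y - 1) + 1 := by ring
      rw [this]
      exact (v.map_add _ _).trans (max_le (hyd.trans hδ) (by simp))
    have e1 : x ^ (l ^ (t + 1)) = y ^ l := by rw [hy, ← pow_mul, pow_succ]
    rw [e1, ← geom_sum_mul, map_mul, pow_succ δ (t + 1), mul_comm (δ ^ (t + 1))]
    refine mul_le_mul' ?_ ih
    have e2 : ∑ i ∈ Finset.range l, y ^ i = (l : L) + ∑ i ∈ Finset.range l, (y ^ i - 1) := by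
      rw [Finset.sum_sub_distrib]
      simp
    rw [e2]
    refine (v.map_add _ _).trans (max_le hlv (v.map_sum_le fun i _ => ?_))
    rw [← geom_sum_mul, map_mul]
    refine (mul_le_of_le_one_left' ?_).trans hyd
    refine v.map_sum_le fun j _ => ?_
    rw [map_pow]
    exact pow_le_one' hyv j

theorem growth' (v : Valuation L Γ) (p : D) (l E N : ℕ) (hl : 2 ≤ l) (hE : 1 ≤ E)
    (hp1 : v (algebraMap D L p) < 1) 
    (hlv : v (l : L) ≤ v (algebraMap D L p)) (z : L) (hy1 : v (z ^ N - 1) < 1)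
    (hy : z ^ N - 1 ≠ 0 → ∃ a : ℕ, v (z ^ N - 1) ^ E = v (algebraMap D L p) ^ a)
    (s t : ℕ) (ht : E * s ≤ t + 1) :
    v (z ^ (N * l ^ t) - 1) ≤ v (algebraMap D L p) ^ s := by
  set π := v (algebraMap D L p) with hπ
  set δ := max (v (z ^ N - 1)) π with hδ
  have hδ1 : δ ≤ 1 := max_le hy1.le hp1.le
  have hδE : δ ^ E ≤ π := by
    rcases max_choice (v (z ^ N - 1)) π with h | h
    · rw [hδ, h]
      by_cases h0 : z ^ N - 1 = 0
      · rw [h0, map_zero, zero_pow (by omega)]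
        exact zero_le'
      · obtain ⟨a, ha⟩ := hy h0
        rw [ha]
        have ha1 : 1 ≤ a := by
          by_contra hcon
          have : a = 0 := by omega
          rw [this, pow_zero] at ha
          have h3 : v (z ^ N - 1) ^ E < 1 := pow_lt_one₀ zero_le' hy1 (by omega)
          exact absurd ha h3.ne
        calc π ^ a ≤ π ^ 1 := pow_le_pow_right_of_le_one' hp1.le ha1
          _ = π := pow_one _
    · rw [hδ, h]
      calc π ^ E ≤ π ^ 1 := pow_le_pow_right_of_le_one' hp1.le hE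
          _ = π := pow_one _
  rw [pow_mul]
  refine (growth v l hl δ hδ1 (hlv.trans (le_max_right _ _)) _ (le_max_left _ _) t).trans ?_
  calc δ ^ (t + 1) ≤ δ ^ (E * s) := pow_le_pow_right_of_le_one' hδ1 ht
    _ = (δ ^ E) ^ s := pow_mul _ _ _
    _ ≤ π ^ s := pow_le_pow_left' hδE s

end Pool.Agent.H17Sv
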