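import Pool.Agent.H17Sv.A
import Pool.Agent.H17Sv.B

set_option autoImplicit false
set_option linter.unusedSectionVars false
set_option linter.unusedVariables false

open Polynomial

namespace Pool.Agent.H17Sv

variable {D K L : Type*} [CommRing D] [IsDomain D] [Field K] [Algebra D K] [IsFractionRing D K]
  [Field L] [Algebra K L] [Algebra D L] [IsScalarTower D K L]

/-- the prime of `D` below the maximal ideal of a valuation ring -/
def below (W : ValuationSubring L) (hW : ∀ d : D, algebraMap D L d ∈ W) : Ideal D :=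
  Ideal.comap ((algebraMap D L).codRestrict W.toSubring hW : D →+* W)
    (IsLocalRing.maximalIdeal W)

instance (W : ValuationSubring L) (hW : ∀ d : D, algebraMap D L d ∈ W) : (below W hW).IsPrime :=
  Ideal.IsPrime.comap _

theorem mem_below (W : ValuationSubring L) (hW : ∀ d : D, algebraMap D L d ∈ W) (d : D) :
    d ∈ below W hW ↔ W.valuation (algebraMap D L d) < 1 := by
  rw [below, Ideal.mem_comap, ValuationSubring.valuation_lt_one_iff]
  rfl

theorem val_unit (W : ValuationSubring L) (hW : ∀ d : D, algebraMap D L d ∈ W) (d : D)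
    (hd : d ∉ below W hW) : W.valuation (algebraMap D L d) = 1 := by
  rw [mem_below] at hd
  exact le_antisymm ((W.valuation_le_one_iff _).2 (hW d)) (not_lt.1 hd)

theorem residue_pow (W : ValuationSubring L) (hW : ∀ d : D, algebraMap D L d ∈ W) (n C : ℕ)
    (hmax : (below W hW).IsMaximal) (hfin : Finite (D ⧸ below W hW))
    (hC : Nat.card (D ⧸ below W hW) ≤ C)
    (hK : ∀ x : K, W.valuation (algebraMap K L x) ≤ 1 →
      ∃ d : D, W.valuation (algebraMap K L x - algebraMap D L d) < 1)
    (z : L) (hz1 : W.valuation z = 1) (hzi : IsIntegral K z)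
    (hzn : (minpoly K z).natDegree ≤ n) :
    W.valuation (z ^ ((C ^ n).factorial) - 1) < 1 := by
  classical
  set v := W.valuation with hv
  set P := below W hW with hP
  set i : D →+* W := (algebraMap D L).codRestrict W.toSubring hW with hi
  set g := minpoly K z with hg
  have hgm : g.Monic := minpoly.monic hzi
  obtain ⟨i0, hi0, hmax0⟩ := Finset.exists_max_image (Finset.range (g.natDegree + 1))
    (fun j => v (algebraMap K L (g.coeff j))) ⟨0, by simp⟩
  have hge1 : 1 ≤ v (algebraMap K L (g.coeff i0)) := by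
    have := hmax0 g.natDegree (by simp)
    rwa [show g.coeff g.natDegree = 1 from hgm, map_one, map_one] at this
  have hc0 : g.coeff i0 ≠ 0 := by
    intro h
    rw [h, map_zero, map_zero] at hge1
    exact absurd hge1 (by simp)
  have hc0v : 0 < v (algebraMap K L (g.coeff i0)) := lt_of_lt_of_le zero_lt_one hge1
  have hle : ∀ j ∈ Finset.range (g.natDegree + 1),
      v (algebraMap K L (g.coeff j / g.coeff i0)) ≤ 1 := by
    intro j hj
    rw [map_div₀, map_div₀, div_le_one₀ hc0v]
    exact hmax0 j hj
  have hd : ∀ j, ∃ d : D, j ∈ Finset.range (g.natDegree + 1) →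
      v (algebraMap K L (g.coeff j / g.coeff i0) - algebraMap D L d) < 1 := by
    intro j
    by_cases hj : j ∈ Finset.range (g.natDegree + 1)
    · obtain ⟨d, hd⟩ := hK _ (hle j hj)
      exact ⟨d, fun _ => hd⟩
    · exact ⟨0, fun h => absurd h hj⟩
  choose d hd using hd
  let _ : Field (D ⧸ P) := Ideal.Quotient.field P
  set k := IsLocalRing.ResidueField W with hk
  set ψ : (D ⧸ P) →+* k := Ideal.Quotient.lift P ((IsLocalRing.residue W).comp i) (by
    intro a ha
    rw [RingHom.comp_apply, IsLocalRing.residue_eq_zero_iff]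
    exact ha) with hψ
  let _ : Algebra (D ⧸ P) k := ψ.toAlgebra
  have hψd : ∀ a : D, algebraMap (D ⧸ P) k (Ideal.Quotient.mk P a) = IsLocalRing.residue W (i a) :=
    fun a => rfl
  have hzW : z ∈ W := (W.valuation_le_one_iff z).1 hz1.le
  set zW : W := ⟨z, hzW⟩ with hzWd
  set zb : k := IsLocalRing.residue W zW with hzb
  have hzb0 : zb ≠ 0 := by
    rw [hzb, Ne, IsLocalRing.residue_eq_zero_iff, ValuationSubring.valuation_lt_one_iff]
    exact fun h => absurd hz1 h.ne
  set G : (D ⧸ P)[X] := ∑ j ∈ Finset.range (g.natDegree + 1),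
    Polynomial.C (Ideal.Quotient.mk P (d j)) * X ^ j with hG
  have hGc : G.coeff i0 ≠ 0 := by
    rw [hG, finsetSum_coeff]
    simp only [coeff_C_mul, coeff_X_pow, mul_ite, mul_one, mul_zero]
    rw [Finset.sum_ite_eq, if_pos hi0, Ne, Ideal.Quotient.eq_zero_iff_mem, hP, mem_below]
    intro h
    have h1 := hd i0 hi0
    rw [div_self hc0, map_one] at h1
    have h2 : v ((1 - algebraMap D L (d i0)) + algebraMap D L (d i0)) < 1 :=
      lt_of_le_of_lt (v.map_add _ _) (max_lt h1 h)
    rw [sub_add_cancel, map_one] at h2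
    exact lt_irrefl _ h2
  have hG0 : G ≠ 0 := fun h => hGc (by rw [h, coeff_zero])
  have hGd : G.natDegree ≤ g.natDegree := by
    rw [hG]
    refine natDegree_sum_le_of_forall_le _ _ fun j hj => ?_
    exact (natDegree_C_mul_X_pow_le _ _).trans (by have := Finset.mem_range.1 hj; omega)
  have hGz : aeval zb G = 0 := by
    rw [hG, map_sum]
    simp only [map_mul, aeval_C, map_pow, aeval_X, hψd]
    have e1 : ∑ j ∈ Finset.range (g.natDegree + 1), IsLocalRing.residue W (i (d j)) * zb ^ j =
        IsLocalRing.residue W (∑ j ∈ Finset.range (g.natDegree + 1), i (d j) * zW ^ j) := by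
      rw [map_sum]
      simp only [map_mul, map_pow, ← hzb]
    rw [e1, IsLocalRing.residue_eq_zero_iff, ValuationSubring.valuation_lt_one_iff]
    have e2 : ((∑ j ∈ Finset.range (g.natDegree + 1), i (d j) * zW ^ j : W) : L) =
        ∑ j ∈ Finset.range (g.natDegree + 1), algebraMap D L (d j) * z ^ j := by
      rw [← ValuationSubring.subtype_apply, map_sum]
      rfl
    rw [e2]
    have e3 : ∑ j ∈ Finset.range (g.natDegree + 1),
        algebraMap K L (g.coeff j / g.coeff i0) * z ^ j = 0 := by
      have h1 : aeval z g = 0 := minpoly.aeval K z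
      rw [aeval_eq_sum_range] at h1
      have h2 : ∑ j ∈ Finset.range (g.natDegree + 1),
          algebraMap K L (g.coeff j / g.coeff i0) * z ^ j = (algebraMap K L (g.coeff i0))⁻¹ *
          ∑ j ∈ Finset.range (g.natDegree + 1), g.coeff j • z ^ j := by
        rw [Finset.mul_sum]
        refine Finset.sum_congr rfl fun j _ => ?_
        rw [map_div₀, Algebra.smul_def]
        ring
      rw [h2, h1, mul_zero]
    have e4 : ∑ j ∈ Finset.range (g.natDegree + 1), algebraMap D L (d j) * z ^ j =
        - ∑ j ∈ Finset.range (g.natDegree + 1),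
          (algebraMap K L (g.coeff j / g.coeff i0) - algebraMap D L (d j)) * z ^ j := by
      simp only [sub_mul, Finset.sum_sub_distrib, e3]
      ring
    rw [e4, Valuation.map_neg]
    refine v.map_sum_lt one_ne_zero fun j hj => ?_
    rw [map_mul, map_pow, hz1, one_pow, mul_one]
    exact hd j hj
  have hint : IsIntegral (D ⧸ P) zb := by
    rw [← isAlgebraic_iff_isIntegral]
    exact ⟨G, hG0, hGz⟩
  have hdeg : (minpoly (D ⧸ P) zb).natDegree ≤ n :=
    (natDegree_le_natDegree (minpoly.degree_le_of_ne_zero (D ⧸ P) zb hG0 hGz)).trans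
      (hGd.trans hzn)
  set M := IntermediateField.adjoin (D ⧸ P) {zb} with hM
  have hfr : Module.finrank (D ⧸ P) M = (minpoly (D ⧸ P) zb).natDegree :=
    IntermediateField.adjoin.finrank hint
  have : FiniteDimensional (D ⧸ P) M := IntermediateField.adjoin.finiteDimensional hint
  have : Finite M := Module.finite_of_finite (D ⧸ P)
  let _ : Fintype M := Fintype.ofFinite M
  let _ : Fintype (D ⧸ P) := Fintype.ofFinite _
  have hcard : Fintype.card M ≤ C ^ n := by
    rw [Module.card_eq_pow_finrank (K := D ⧸ P) (V := M), hfr]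
    rw [Nat.card_eq_fintype_card] at hC
    have h1 : 1 ≤ C := le_trans Fintype.card_pos hC
    calc _ ≤ C ^ (minpoly (D ⧸ P) zb).natDegree := Nat.pow_le_pow_left hC _
      _ ≤ _ := Nat.pow_le_pow_right h1 hdeg
  set zM : M := ⟨zb, IntermediateField.mem_adjoin_simple_self _ _⟩ with hzM
  have hzM0 : zM ≠ 0 := by
    intro h
    exact hzb0 (congrArg Subtype.val h)
  have hpow : zM ^ (Fintype.card M - 1) = 1 := FiniteField.pow_card_sub_one_eq_one zM hzM0
  have hcard2 : 1 < Fintype.card M := Fintype.one_lt_card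
  obtain ⟨m, hm⟩ : (Fintype.card M - 1) ∣ (C ^ n).factorial :=
    Nat.dvd_factorial (by omega) (by omega)
  have hzbN : zb ^ ((C ^ n).factorial) = 1 := by
    have h1 : zM ^ ((C ^ n).factorial) = 1 := by rw [hm, pow_mul, hpow, one_pow]
    have h2 := congrArg Subtype.val h1
    simpa using h2
  have h3 : IsLocalRing.residue W (zW ^ ((C ^ n).factorial) - 1) = 0 := by
    rw [map_sub, map_pow, map_one, ← hzb, hzbN, sub_self]
  rw [IsLocalRing.residue_eq_zero_iff, ValuationSubring.valuation_lt_one_iff] at h3
  exact h3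

end Pool.Agent.H17Sv
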