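import Pool.Agent.H17Sv.C

set_option autoImplicit false
set_option linter.unusedSectionVars false
set_option linter.unusedVariables false

open Polynomial

namespace Pool.Agent.H17Sv

variable {D K L : Type*} [CommRing D] [IsDomain D] [Field K] [Algebra D K] [IsFractionRing D K]
  [Field L] [Algebra K L] [Algebra D L] [IsScalarTower D K L]

/-- the ramification and the residue degrees above `p` are bounded -/
def BoundedAt {D : Type*} [CommRing D] (p : D) : Prop :=
  ∃ c : ℕ, ∀ (M : Ideal D) [M.IsMaximal], p ∈ M →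
    algebraMap D (Localization.AtPrime M) p ∉
      IsLocalRing.maximalIdeal (Localization.AtPrime M) ^ (c + 1) ∧
    Nat.card (D ⧸ M) ≤ c

theorem deg_adjoin (r y : L) (n : ℕ) (hr : IsIntegral K r) (hn : (minpoly K r).natDegree ≤ n)
    (hy : y ∈ IntermediateField.adjoin K {r}) :
    IsIntegral K y ∧ (minpoly K y).natDegree ≤ n := by
  have : FiniteDimensional K (IntermediateField.adjoin K {r}) :=
    IntermediateField.adjoin.finiteDimensional hr
  have h1 : IsIntegral K (⟨y, hy⟩ : IntermediateField.adjoin K {r}) := IsIntegral.of_finite _ _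
  have h2 : minpoly K (⟨y, hy⟩ : IntermediateField.adjoin K {r}) = minpoly K y :=
    (minpoly.algebraMap_eq (algebraMap (IntermediateField.adjoin K {r}) L).injective _).symm
  refine ⟨h1.map (IntermediateField.val (IntermediateField.adjoin K {r})), ?_⟩
  rw [← h2]
  refine (minpoly.natDegree_le _).trans ?_
  rw [IntermediateField.adjoin.finrank hr]
  exact hn

/-- the facts on a valuation ring above `p` which are used for the sieve polynomial -/
theorem facts (hDVR : ∀ (M : Ideal D) [M.IsMaximal],
      IsDiscreteValuationRing (Localization.AtPrime M))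
    (hfin : ∀ M : Ideal D, M.IsPrime → M ≠ ⊥ → Finite (D ⧸ M)) (p : D) (hp0 : p ≠ 0) (c : ℕ)
    (hc : ∀ (M : Ideal D) [M.IsMaximal], p ∈ M →
      algebraMap D (Localization.AtPrime M) p ∉
        IsLocalRing.maximalIdeal (Localization.AtPrime M) ^ (c + 1) ∧
      Nat.card (D ⧸ M) ≤ c) (l : ℕ) (hl : 2 ≤ l) (hpl : p ∣ (l : D)) (n : ℕ)
    (W : ValuationSubring L) (hW : ∀ d : D, algebraMap D L d ∈ W)
    (hp1 : W.valuation (algebraMap D L p) < 1) (z : L) (hz : z ≠ 0) (hzi : IsIntegral K z)
    (hzn : (minpoly K z).natDegree ≤ n) (hz1 : W.valuation z ≤ 1) :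
    (∃ a : ℕ, W.valuation z ^ (n.factorial * c.factorial) =
      W.valuation (algebraMap D L p) ^ a) ∧
    ∀ j s t : ℕ, W.valuation z ^ (n.factorial * c.factorial) =
      W.valuation (algebraMap D L p) ^ j → n.factorial * c.factorial * s ≤ t + 1 →
      W.valuation (((algebraMap D L p ^ j)⁻¹ * z ^ (n.factorial * c.factorial)) ^
        ((c ^ n).factorial * l ^ t) - 1) ≤ W.valuation (algebraMap D L p) ^ s := by
  set v := W.valuation with hv
  have hinj : Function.Injective (algebraMap D L) := by
    rw [IsScalarTower.algebraMap_eq D K L]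
    exact (algebraMap K L).injective.comp (IsFractionRing.injective D K)
  have hpP : p ∈ below W hW := (mem_below W hW p).2 hp1
  have hPne : below W hW ≠ ⊥ := by
    intro h
    rw [h] at hpP
    exact hp0 (by simpa using hpP)
  have hPfin : Finite (D ⧸ below W hW) := hfin _ inferInstance hPne
  have hPmax : (below W hW).IsMaximal :=
    Ideal.Quotient.maximal_of_isField _ (Finite.isField_of_domain (D ⧸ below W hW))
  have hdvr := hDVR (below W hW)
  obtain ⟨hc1, hc2⟩ := hc (below W hW) hpP
  obtain ⟨w, hwP, hw1, hw2⟩ := local_data (below W hW)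
  have hd : ∀ d : D, d ≠ 0 → ∃ k : ℕ, v (algebraMap D L d) = v (algebraMap D L w) ^ k := by
    intro d hd
    obtain ⟨k, a, s, ha, hs, h⟩ := hw1 d hd
    refine ⟨k, ?_⟩
    have h1 := congrArg (fun x => v (algebraMap D L x)) h
    simp only [map_mul, map_pow] at h1
    rwa [val_unit W hW a ha, val_unit W hW s hs, one_mul, one_mul] at h1
  obtain ⟨e, a, s, ha, hs, hpe⟩ := hw1 p hp0
  have hec : e ≤ c := hw2 p c hc1 e a s hs hpe
  have hpv : v (algebraMap D L p) = v (algebraMap D L w) ^ e := by
    have h1 := congrArg (fun x => v (algebraMap D L x)) hpe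
    simp only [map_mul, map_pow] at h1
    rwa [val_unit W hW a ha, val_unit W hW s hs, one_mul, one_mul] at h1
  have hpv0 : v (algebraMap D L p) ≠ 0 := by
    rw [Valuation.ne_zero_iff, Ne, map_eq_zero_iff _ hinj]; exact hp0
  have he : 1 ≤ e := by
    by_contra hcon
    have : e = 0 := by omega
    rw [this, pow_zero] at hpv
    exact absurd hpv hp1.ne
  have hw0 : v (algebraMap D L w) ≠ 0 := by
    intro h
    rw [h, zero_pow (by omega)] at hpv
    exact hpv0 hpv
  have hwlt : v (algebraMap D L w) < 1 := (mem_below W hW w).1 hwP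
  have hval : ∀ y : L, y ≠ 0 → IsIntegral K y → (minpoly K y).natDegree ≤ n → v y ≤ 1 →
      ∃ a : ℕ, v y ^ (n.factorial * c.factorial) = v (algebraMap D L p) ^ a :=
    fun y hy hyi hyn hy1 => val_z v p w e c n he hec hw0 hpv hp1 hd y hy hyi hyn hy1
  refine ⟨hval z hz hzi hzn hz1, ?_⟩
  have hK : ∀ x : K, W.valuation (algebraMap K L x) ≤ 1 →
      ∃ d : D, W.valuation (algebraMap K L x - algebraMap D L d) < 1 := by
    intro x hx
    rcases hx.lt_or_eq with hx | hx
    · exact ⟨0, by rw [map_zero, sub_zero]; exact hx⟩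
    · obtain ⟨d1, d2, hd2, rfl⟩ := IsFractionRing.div_surjective (A := D) x
      have hd2' : d2 ≠ 0 := nonZeroDivisors.ne_zero hd2
      have hd1' : d1 ≠ 0 := by
        rintro rfl
        simp at hx
      obtain ⟨k1, a1, s1, ha1, hs1, h1⟩ := hw1 d1 hd1'
      obtain ⟨k2, a2, s2, ha2, hs2, h2⟩ := hw1 d2 hd2'
      rw [map_div₀, ← IsScalarTower.algebraMap_apply, ← IsScalarTower.algebraMap_apply] at hx ⊢
      set ι := algebraMap D L with hι
      have hne : ∀ d : D, d ≠ 0 → ι d ≠ 0 := fun d hd => by
        rw [Ne, map_eq_zero_iff _ hinj]; exact hd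
      have hnP : ∀ d : D, d ∉ below W hW → ι d ≠ 0 := fun d hd => hne d (by
        rintro rfl; exact hd (zero_mem _))
      have e1 : ι s1 * ι d1 = ι a1 * ι w ^ k1 := by rw [← map_mul, h1, map_mul, map_pow]
      have e2 : ι s2 * ι d2 = ι a2 * ι w ^ k2 := by rw [← map_mul, h2, map_mul, map_pow]
      have hk : k1 = k2 := by
        have f1 := congrArg v e1
        have f2 := congrArg v e2
        rw [map_mul, map_mul, map_pow, val_unit W hW a1 ha1, val_unit W hW s1 hs1, one_mul,
          one_mul] at f1
        rw [map_mul, map_mul, map_pow, val_unit W hW a2 ha2, val_unit W hW s2 hs2, one_mul,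
          one_mul] at f2
        have hd2v : v (ι d2) ≠ 0 := (Valuation.ne_zero_iff _).2 (hne _ hd2')
        have f3 : v (ι d1) = v (ι d2) := by
          have : v (ι d1 / ι d2) = 1 := hx
          rwa [map_div₀, div_eq_one_iff_eq hd2v] at this
        rw [f1, f2] at f3
        by_contra hkk
        rcases lt_or_gt_of_ne hkk with h | h
        · have := pow_lt_pow_right_of_lt_one₀ (zero_lt_iff.2 hw0) hwlt h
          exact absurd f3 this.ne'
        · have := pow_lt_pow_right_of_lt_one₀ (zero_lt_iff.2 hw0) hwlt h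
          exact absurd f3 this.ne
      -- invert `a2 * s1` modulo the prime
      have hmul : a2 * s1 ∉ below W hW := fun h =>
        ((inferInstance : (below W hW).IsPrime).mem_or_mem h).elim ha2 hs1
      obtain ⟨t, ht⟩ := hPmax.exists_inv hmul
      obtain ⟨q, hqP, hq⟩ := ht
      refine ⟨a1 * s2 * t, ?_⟩
      have hwne : ι w ≠ 0 := fun h => hw0 (by rw [h, map_zero])
      have e3 : ι d1 / ι d2 = ι (a1 * s2) / ι (a2 * s1) := by
        rw [div_eq_div_iff (hne _ hd2') (hnP _ hmul), map_mul, map_mul]
        have : ι w ^ k2 ≠ 0 := pow_ne_zero _ hwne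
        apply mul_right_cancel₀ this
        rw [hk] at e1
        linear_combination (ι a2 * ι w ^ k2) * e1 - (ι a1 * ι w ^ k2) * e2
      have e4 : ι d1 / ι d2 - ι (a1 * s2 * t) = ι (a1 * s2) * ι q / ι (a2 * s1) := by
        rw [e3, eq_div_iff (hnP _ hmul), sub_mul, div_mul_cancel₀ _ (hnP _ hmul)]
        have e5 : ι t * ι (a2 * s1) + ι q = 1 := by
          rw [← map_mul, ← map_add, hq, map_one]
        rw [map_mul ι (a1 * s2) t]
        linear_combination (-ι (a1 * s2)) * e5
      rw [e4, map_div₀, map_mul, val_unit W hW _ hmul, div_one]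
      refine lt_of_le_of_lt (mul_le_of_le_one_left' ((W.valuation_le_one_iff _).2 (hW _))) ?_
      exact (mem_below W hW q).1 hqP
  intro j s t hzj hst
  set E := n.factorial * c.factorial with hE
  have hE1 : 1 ≤ E := Nat.mul_pos (Nat.factorial_pos _) (Nat.factorial_pos _)
  set u : L := (algebraMap D L p ^ j)⁻¹ * z ^ E with hu
  have hu1 : v u = 1 := by
    rw [hu, map_mul, map_inv₀, map_pow, map_pow, hzj, inv_mul_cancel₀ (pow_ne_zero _ hpv0)]
  have hmem : ∀ k : ℕ, u ^ k - 1 ∈ IntermediateField.adjoin K {z} := by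
    intro k
    refine sub_mem (pow_mem (mul_mem (inv_mem (pow_mem ?_ _)) (pow_mem
      (IntermediateField.mem_adjoin_simple_self K z) _)) _) (one_mem _)
    rw [IsScalarTower.algebraMap_apply D K L]
    exact IntermediateField.algebraMap_mem _ _
  have hmemu : u ∈ IntermediateField.adjoin K {z} := by
    have := add_mem (hmem 1) (one_mem _)
    simpa using this
  have hui := deg_adjoin z u n hzi hzn hmemu
  have hres : v (u ^ ((c ^ n).factorial) - 1) < 1 :=
    residue_pow W hW n c hPmax hPfin hc2 hK u hu1 hui.1 hui.2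
  have hlv : v (l : L) ≤ v (algebraMap D L p) := by
    obtain ⟨q, hq⟩ := hpl
    have : (l : L) = algebraMap D L p * algebraMap D L q := by
      rw [← map_mul, ← hq, map_natCast]
    rw [this, map_mul]
    exact mul_le_of_le_one_right' ((W.valuation_le_one_iff _).2 (hW _))
  refine growth' v p l E ((c ^ n).factorial) hl hE1 hp1 hlv u hres ?_ s t hst
  intro hne
  have h3 := deg_adjoin z _ n hzi hzn (hmem ((c ^ n).factorial))
  exact hval _ hne h3.1 h3.2 hres.le

end Pool.Agent.H17Sv
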