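import Mathlib

set_option autoImplicit false
set_option linter.unusedSectionVars false
set_option linter.unusedVariables false

open Polynomial

namespace Pool.Agent.H17Sv

variable {D K L : Type*} [CommRing D] [IsDomain D] [Field K] [Algebra D K] [IsFractionRing D K]
  [Field L] [Algebra K L] [Algebra D L] [IsScalarTower D K L]

theorem sieve (p : D) (hp0 : p ≠ 0) (m E N l M' : ℕ) (hE : 1 ≤ E) (hN : 1 ≤ N) (hl : 2 ≤ l)
    (Good : ValuationSubring L → L → Prop)
    (h0 : ∀ W z, Good W z → z ≠ 0 ∧ W.valuation (algebraMap D L p) < 1 ∧ W.valuation z ≤ 1)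
    (h1 : ∀ W z, Good W z → ∃ a : ℕ, W.valuation z ^ E = W.valuation (algebraMap D L p) ^ a)
    (h2 : ∀ W z, Good W z → ∀ j s t : ℕ,
      W.valuation z ^ E = W.valuation (algebraMap D L p) ^ j → E * s ≤ t + 1 →
      W.valuation (((algebraMap D L p ^ j)⁻¹ * z ^ E) ^ (N * l ^ t) - 1) ≤
        W.valuation (algebraMap D L p) ^ s) :
    ∃ g : K[X], (∃ (k : ℕ) (G : D[X]), C (algebraMap D K p ^ k) * g = G.map (algebraMap D K)) ∧
      (∃ q : D[X], g.comp (C (algebraMap D K p ^ m) * X) =
        X * (1 - C (algebraMap D K p ^ M') * q.map (algebraMap D K))) ∧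
      ∀ W z, Good W z → W.valuation (aeval z g) ≤ 1 := by
  set P := algebraMap D K p with hP
  have hP0 : P ≠ 0 := by
    rw [hP, Ne, map_eq_zero_iff _ (IsFractionRing.injective D K)]; exact hp0
  have hPL : algebraMap K L P = algebraMap D L p := by
    rw [hP, ← IsScalarTower.algebraMap_apply]
  have hpL0 : algebraMap D L p ≠ 0 := by
    rw [← hPL, Ne, map_eq_zero]; exact hP0
  set J := E * m with hJ
  have main : ∀ r : ℕ, r ≤ J → ∃ (g : K[X]) (c : ℕ),
      (∃ (k : ℕ) (G : D[X]), C (P ^ k) * g = G.map (algebraMap D K)) ∧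
      (∃ q : D[X], g.comp (C (P ^ m) * X) =
        X * (1 - C (P ^ M') * q.map (algebraMap D K))) ∧
      (∀ W z, Good W z →
        W.valuation (aeval z g) * W.valuation (algebraMap D L p) ^ c ≤ 1) ∧
      (∀ W z, Good W z → ∀ a : ℕ,
        W.valuation z ^ E = W.valuation (algebraMap D L p) ^ a → J - r ≤ a →
        W.valuation (aeval z g) ≤ 1) := by
    intro r
    induction r with
    | zero =>
      intro _
      refine ⟨C ((P ^ m)⁻¹) * X, m, ⟨m, X, ?_⟩, ⟨0, ?_⟩, ?_, ?_⟩
      · rw [← mul_assoc, ← C_mul, mul_inv_cancel₀ (pow_ne_zero _ hP0), C_1, one_mul, map_X]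
      · rw [mul_comp, C_comp, X_comp, ← mul_assoc, ← C_mul, inv_mul_cancel₀ (pow_ne_zero _ hP0)]
        simp
      · intro W z hz
        obtain ⟨hz0, hp1, hz1⟩ := h0 W z hz
        have hv0 : W.valuation (algebraMap D L p) ≠ 0 := (Valuation.ne_zero_iff _).2 hpL0
        rw [map_mul, aeval_C, aeval_X, map_inv₀, map_pow, hPL, map_mul, map_inv₀, map_pow,
          mul_comm (_⁻¹), mul_assoc, inv_mul_cancel₀ (pow_ne_zero _ hv0), mul_one]
        exact hz1
      · intro W z hz a ha haJ
        obtain ⟨hz0, hp1, hz1⟩ := h0 W z hz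
        have hv0 : W.valuation (algebraMap D L p) ≠ 0 := (Valuation.ne_zero_iff _).2 hpL0
        rw [map_mul, aeval_C, aeval_X, map_inv₀, map_pow, hPL, map_mul, map_inv₀, map_pow,
          mul_comm (_⁻¹), ← div_eq_mul_inv,
          div_le_one₀ (zero_lt_iff.2 (pow_ne_zero _ hv0))]
        have h5 : W.valuation z ^ E ≤ (W.valuation (algebraMap D L p) ^ m) ^ E := by
          rw [ha, ← pow_mul]
          exact pow_le_pow_right_of_le_one' hp1.le (by rw [mul_comm]; omega)
        exact (pow_le_pow_iff_left₀ zero_le zero_le (by omega)).1 h5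
    | succ r ih =>
      intro hr
      obtain ⟨g, c, ⟨k, G, hG⟩, ⟨q, hq⟩, hC1, hC2⟩ := ih (by omega)
      set j := J - 1 - r with hj
      set t := E * c + M' with ht
      obtain ⟨N', hN'⟩ : ∃ N', N' = N * l ^ t := ⟨_, rfl⟩
      have hN'M : M' ≤ N' := by
        have h3 : t < l ^ t := Nat.lt_pow_self (by omega)
        have h4 : l ^ t ≤ N' := by rw [hN']; exact Nat.le_mul_of_pos_left _ (by omega)
        omega
      set φ : K[X] := 1 - (C ((P ^ j)⁻¹) * X ^ E) ^ N' with hφ
      have hφz : ∀ z : L, aeval z φ = 1 - ((algebraMap D L p ^ j)⁻¹ * z ^ E) ^ N' := by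
        intro z
        rw [hφ, map_sub, map_one, map_pow, map_mul, aeval_C, map_pow, aeval_X, map_inv₀, map_pow,
          hPL]
      refine ⟨g * φ, c + j * N', ⟨k + j * N', G * (C (p ^ (j * N')) - X ^ (E * N')), ?_⟩, ?_, ?_,
        ?_⟩
      · have e0 : C (P ^ (j * N')) * (C ((P ^ j)⁻¹) * X ^ E) ^ N' = X ^ (E * N') := by
          rw [mul_pow, ← C_pow, ← mul_assoc, ← C_mul, inv_pow, ← pow_mul,
            mul_inv_cancel₀ (pow_ne_zero _ hP0), C_1, one_mul, ← pow_mul]
        have e1 : C (P ^ (j * N')) * φ = C (P ^ (j * N')) - X ^ (E * N') := by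
          rw [hφ, mul_sub, mul_one, e0]
        have e2 : (C (p ^ (j * N')) - X ^ (E * N') : D[X]).map (algebraMap D K) =
            C (P ^ (j * N')) * φ := by
          rw [e1, Polynomial.map_sub, map_C, Polynomial.map_pow, map_X, map_pow]
        rw [Polynomial.map_mul, e2, ← hG, pow_add, C_mul]
        ring
      · have hm1 : j + 1 ≤ m * E := by rw [mul_comm]; omega
        obtain ⟨b, hb⟩ : ∃ b, m * E = j + b := ⟨m * E - j, by omega⟩
        have hb1 : 1 ≤ b := by omega
        obtain ⟨b', hb'⟩ : ∃ b', b * N' = M' + b' := ⟨b * N' - M', by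
          have : N' ≤ b * N' := Nat.le_mul_of_pos_left _ hb1
          omega⟩
        have e0 : (C ((P ^ j)⁻¹) * (C (P ^ m) * X) ^ E) ^ N' =
            C (P ^ M') * (C (P ^ b') * X ^ (E * N')) := by
          rw [mul_pow (C (P ^ m)) X E, ← C_pow, ← mul_assoc, ← C_mul, ← pow_mul, hb, pow_add,
            ← mul_assoc ((P ^ j)⁻¹), inv_mul_cancel₀ (pow_ne_zero _ hP0), one_mul, mul_pow,
            ← C_pow, ← pow_mul, ← pow_mul, hb', pow_add, C_mul, mul_assoc]
        have e1 : φ.comp (C (P ^ m) * X) =
            1 - C (P ^ M') * (C (P ^ b') * X ^ (E * N')) := by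
          rw [hφ]
          simp only [sub_comp, one_comp, pow_comp, mul_comp, C_comp, X_comp]
          rw [e0]
        have hQ : (C (p ^ b') * X ^ (E * N') : D[X]).map (algebraMap D K) =
            C (P ^ b') * X ^ (E * N') := by
          rw [Polynomial.map_mul, map_C, Polynomial.map_pow, map_X, map_pow]
        obtain ⟨Q, hQ0⟩ : ∃ Q : D[X], Q = C (p ^ b') * X ^ (E * N') := ⟨_, rfl⟩
        rw [← hQ0] at hQ
        refine ⟨q + Q - C (p ^ M') * q * Q, ?_⟩
        have hc : (C (p ^ M') : D[X]).map (algebraMap D K) = C (P ^ M') := by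
          rw [map_C, map_pow]
        rw [mul_comp, hq, e1, Polynomial.map_sub, Polynomial.map_add,
          Polynomial.map_mul, Polynomial.map_mul, hQ, hc]
        ring
      · intro W z hz
        obtain ⟨hz0, hp1, hz1⟩ := h0 W z hz
        have hv0 : W.valuation (algebraMap D L p) ≠ 0 := (Valuation.ne_zero_iff _).2 hpL0
        have h3 := hC1 W z hz
        have h4 : W.valuation (aeval z φ) * W.valuation (algebraMap D L p) ^ (j * N') ≤ 1 := by
          have e3 : W.valuation (1 - ((algebraMap D L p ^ j)⁻¹ * z ^ E) ^ N') *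
              W.valuation (algebraMap D L p) ^ (j * N') =
              W.valuation ((1 - ((algebraMap D L p ^ j)⁻¹ * z ^ E) ^ N') *
                algebraMap D L p ^ (j * N')) := by rw [map_mul, map_pow W.valuation]
          rw [hφz, e3]
          have e2 : (1 - ((algebraMap D L p ^ j)⁻¹ * z ^ E) ^ N') * algebraMap D L p ^ (j * N') =
              algebraMap D L p ^ (j * N') - z ^ (E * N') := by
            rw [sub_mul, one_mul, mul_pow, inv_pow, ← pow_mul, ← pow_mul]
            have := pow_ne_zero (j * N') hpL0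
            field_simp
          rw [e2]
          refine (W.valuation.map_sub _ _).trans (max_le ?_ ?_)
          · rw [map_pow]; exact pow_le_one' hp1.le _
          · rw [map_pow]; exact pow_le_one' hz1 _
        rw [map_mul, map_mul, pow_add]
        calc W.valuation (aeval z g) * W.valuation (aeval z φ) *
              (W.valuation (algebraMap D L p) ^ c * W.valuation (algebraMap D L p) ^ (j * N'))
            = (W.valuation (aeval z g) * W.valuation (algebraMap D L p) ^ c) *
              (W.valuation (aeval z φ) * W.valuation (algebraMap D L p) ^ (j * N')) := by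
              simp only [mul_assoc, mul_left_comm, mul_comm]
          _ ≤ 1 := mul_le_one' h3 h4
      · intro W z hz a ha haJ
        obtain ⟨hz0, hp1, hz1⟩ := h0 W z hz
        have hv0 : W.valuation (algebraMap D L p) ≠ 0 := (Valuation.ne_zero_iff _).2 hpL0
        rw [map_mul, map_mul]
        by_cases haj : a = j
        · rw [haj] at ha
          have h3 := hC1 W z hz
          have h4 := h2 W z hz j c t ha (by omega)
          rw [← hN'] at h4
          have h5 : W.valuation (aeval z φ) ≤ W.valuation (algebraMap D L p) ^ c := by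
            rw [hφz, Valuation.map_sub_swap]
            exact h4
          exact (mul_le_mul_right h5 _).trans h3
        · have h3 := hC2 W z hz a ha (by omega)
          refine mul_le_one' h3 ?_
          rw [hφz]
          refine (W.valuation.map_sub _ _).trans (max_le (by rw [map_one]) ?_)
          rw [map_pow]
          refine pow_le_one' ?_ _
          rw [map_mul, map_inv₀, map_pow, map_pow, ha, mul_comm, ← div_eq_mul_inv,
            div_le_one₀ (zero_lt_iff.2 (pow_ne_zero _ hv0))]
          exact pow_le_pow_right_of_le_one' hp1.le (by omega)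
  obtain ⟨g, c, hA, hB, -, hC⟩ := main J le_rfl
  refine ⟨g, hA, hB, fun W z hz => ?_⟩
  obtain ⟨a, ha⟩ := h1 W z hz
  exact hC W z hz a ha (by omega)

end Pool.Agent.H17Sv
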