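import Pool.Agent.H17Sv.Dd
import Pool.Agent.H17Sv.E
import Pool.Agent.V113.IntK.Main

set_option autoImplicit false
set_option linter.unusedSectionVars false
set_option linter.unusedVariables false

open Polynomial TensorProduct Pool.Agent.V113.IntK

namespace Pool.Agent.H17Sv

theorem mem_of_integral {D L : Type*} [CommRing D] [Field L] [Algebra D L]
    (W : ValuationSubring L) (hW : ∀ d : D, algebraMap D L d ∈ W) (z : L) (hz : IsIntegral D z) :
    z ∈ W := by
  have h1 : IsIntegral W z := by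
    obtain ⟨φ, hφ, h0⟩ := hz
    refine ⟨φ.map ((algebraMap D L).codRestrict W.toSubring hW : D →+* W), hφ.map _, ?_⟩
    rw [eval₂_map]
    exact h0
  obtain ⟨y, hy⟩ := (IsIntegrallyClosed.isIntegral_iff (R := W) (K := L)).1 h1
  rw [← hy]
  exact y.2

variable {D K : Type*} [CommRing D] [IsDomain D] [IsIntegrallyClosed D] [Field K] [Algebra D K]
  [IsFractionRing D K]

/-- the sieve polynomial of an algebra -/
theorem exists_poly (L : Type*) [Field L] [IsAlgClosed L] [Algebra K L] [Algebra D L]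
    [IsScalarTower D K L] {A : Type*} [Ring A] [Nontrivial A] [Algebra D A] [Module.Finite D A]
    [Module.IsTorsionFree D A]
    (hDVR : ∀ (M : Ideal D) [M.IsMaximal], IsDiscreteValuationRing (Localization.AtPrime M))
    (hfin : ∀ M : Ideal D, M.IsPrime → M ≠ ⊥ → Finite (D ⧸ M)) (p : D) (hp0 : p ≠ 0)
    (hb : BoundedAt p) (l : ℕ) (hl : 2 ≤ l) (hpl : p ∣ (l : D)) (m M' : ℕ) :
    ∃ f ∈ IntKPrime D K A, ∃ q : D[X], f.comp (C (algebraMap D K p ^ m) * X) =
      X * (1 - C (algebraMap D K p ^ M') * q.map (algebraMap D K)) := by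
  obtain ⟨c, hc⟩ := hb
  set n := Module.finrank K (K ⊗[D] A) with hn
  obtain ⟨f, ⟨k, G, hA⟩, hB, hC⟩ := sieve (D := D) (K := K) (L := L) p hp0 m
    (n.factorial * c.factorial) ((c ^ n).factorial) l M'
    (Nat.mul_pos (Nat.factorial_pos _) (Nat.factorial_pos _)) (Nat.factorial_pos _) hl
    (fun W z => z ≠ 0 ∧ W.valuation (algebraMap D L p) < 1 ∧ W.valuation z ≤ 1 ∧
      (∀ d : D, algebraMap D L d ∈ W) ∧ IsIntegral K z ∧ (minpoly K z).natDegree ≤ n)
    (fun W z h => ⟨h.1, h.2.1, h.2.2.1⟩)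
    (fun W z h => (facts hDVR hfin p hp0 c hc l hl hpl n W h.2.2.2.1 h.2.1 z h.1 h.2.2.2.2.1
      h.2.2.2.2.2 h.2.2.1).1)
    (fun W z h => (facts hDVR hfin p hp0 c hc l hl hpl n W h.2.2.2.1 h.2.1 z h.1 h.2.2.2.2.1
      h.2.2.2.2.2 h.2.2.1).2)
  refine ⟨f, ?_, hB⟩
  intro a
  obtain ⟨χ, hχm, hχd, hχ⟩ := exists_char (D := D) (K := K) (inc D K A a)
    ((IsIntegral.of_finite D a).map (inc D K A))
  refine integral_of_roots (L := L) χ hχm _ hχ f fun r hr => ?_
  have hri : IsIntegral D r := ⟨χ, hχm, hr⟩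
  have hriK : IsIntegral K r := hri.tower_top
  have hrn : (minpoly K r).natDegree ≤ n := by
    have h1 : aeval r (χ.map (algebraMap D K)) = 0 := by rw [aeval_map_algebraMap]; exact hr
    refine (natDegree_le_natDegree (minpoly.degree_le_of_ne_zero K r
      (hχm.map _).ne_zero h1)).trans ?_
    rw [natDegree_map_eq_of_injective (IsFractionRing.injective D K), hχd]
  have hf0 : f.eval 0 = 0 := by
    obtain ⟨q, hq⟩ := hB
    have h1 := congrArg (eval 0) hq
    simpa using h1
  refine integral_of_val (D := D) _ fun W hW => ?_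
  by_cases hr0 : r = 0
  · subst hr0
    have h1 : aeval (0 : L) f = 0 := by
      have h2 := aeval_algebraMap_apply L (0 : K) f
      rw [map_zero] at h2
      rw [h2, coe_aeval_eq_eval, hf0, map_zero]
    rw [h1]
    exact zero_mem _
  have hrW : r ∈ W := mem_of_integral W hW r hri
  rw [← W.valuation_le_one_iff]
  by_cases hp1 : W.valuation (algebraMap D L p) < 1
  · exact hC W r ⟨hr0, hp1, (W.valuation_le_one_iff _).2 hrW, hW, hriK, hrn⟩
  · have hp2 : W.valuation (algebraMap D L p) = 1 :=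
      le_antisymm ((W.valuation_le_one_iff _).2 (hW p)) (not_lt.1 hp1)
    have h1 := congrArg (aeval r) hA
    rw [map_mul, aeval_C, map_pow, ← IsScalarTower.algebraMap_apply, aeval_map_algebraMap] at h1
    have h2 : aeval r G ∈ W := by
      rw [aeval_eq_sum_range]
      refine sum_mem fun i _ => ?_
      rw [Algebra.smul_def]
      exact mul_mem (hW _) (pow_mem hrW _)
    have h3 : W.valuation (aeval r f) = W.valuation (aeval r G) := by
      rw [← h1, map_mul, map_pow, hp2, one_pow, one_mul]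
    rw [h3]
    exact (W.valuation_le_one_iff _).2 h2

end Pool.Agent.H17Sv
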