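import Pool.Agent.H17Sv.F

set_option autoImplicit false
set_option linter.unusedSectionVars false
set_option linter.unusedVariables false

open Polynomial TensorProduct Pool.Agent.V113.IntK

namespace Pool.Agent.H17Sv

/-- An ADDB-domain: an almost Dedekind domain, not a field, with finite residue fields, and with a
subring `D₀` isomorphic to `ℤ` or to `𝔽_l[t]` such that above each prime element `p` of `D₀` the
ramification indices (the exponents of `p` in the localizations) and the cardinalities of the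
residue fields (equivalently, the residue degrees) are bounded. -/
structure IsADDB (D : Type*) [CommRing D] [IsDomain D] : Prop where
  not_isField : ¬ IsField D
  almost_dedekind : ∀ (M : Ideal D) [M.IsMaximal],
    IsDiscreteValuationRing (Localization.AtPrime M)
  finite_residue : ∀ M : Ideal D, M.IsMaximal → Finite (D ⧸ M)
  bounded : ∃ D₀ : Subring D,
    (Nonempty (D₀ ≃+* ℤ) ∨ ∃ l : ℕ, l.Prime ∧ Nonempty (D₀ ≃+* (ZMod l)[X])) ∧
    ∀ p : D₀, Prime p → BoundedAt (p : D)

section prime

variable {D : Type*} [CommRing D] [IsDomain D]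

theorem exists_prime_of {R : Type*} [CommRing R] [IsDomain R] [UniqueFactorizationMonoid R]
    [Infinite R] (D₀ : Subring D) (e : D₀ ≃+* R) (M : Ideal D) [M.IsPrime] (hf : Finite (D ⧸ M)) :
    ∃ q : R, Prime q ∧ ((e.symm q : D₀) : D) ∈ M := by
  let φ : R →+* D ⧸ M := (Ideal.Quotient.mk M).comp (D₀.subtype.comp (e.symm : R →+* D₀))
  have hk : (RingHom.ker φ).IsPrime := RingHom.ker_isPrime φ
  have hne : RingHom.ker φ ≠ ⊥ := by
    intro h
    rw [← RingHom.injective_iff_ker_eq_bot] at h
    exact not_finite_iff_infinite.2 ‹Infinite R› (Finite.of_injective φ h)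
  obtain ⟨q, hq1, hq2⟩ := hk.exists_mem_prime_of_ne_bot hne
  refine ⟨q, hq2, ?_⟩
  have h1 : φ q = 0 := hq1
  exact Ideal.Quotient.eq_zero_iff_mem.1 h1

theorem exists_p (h : IsADDB D) (M : Ideal D) [hM : M.IsMaximal] :
    ∃ (p : D) (l : ℕ), p ∈ M ∧ p ≠ 0 ∧ BoundedAt p ∧ 2 ≤ l ∧ p ∣ (l : D) := by
  obtain ⟨D₀, hD₀, hb⟩ := h.bounded
  have hf := h.finite_residue M hM
  rcases hD₀ with ⟨⟨e⟩⟩ | ⟨l, hl, ⟨e⟩⟩
  · obtain ⟨q, hq, hqM⟩ := exists_prime_of D₀ e M hf
    have hp : Prime (e.symm q) := (MulEquiv.prime_iff (e.symm : ℤ ≃* D₀)).2 hq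
    refine ⟨e.symm q, q.natAbs, hqM, ?_, hb _ hp, (Int.prime_iff_natAbs_prime.1 hq).two_le, ?_⟩
    · intro h0
      apply hp.ne_zero
      exact Subtype.ext h0
    · have h1 : e.symm q ∣ e.symm (q.natAbs : ℤ) := map_dvd e.symm (Int.dvd_natAbs.2 dvd_rfl)
      have h2 := map_dvd D₀.subtype h1
      simpa using h2
  · have : Fact l.Prime := ⟨hl⟩
    obtain ⟨q, hq, hqM⟩ := exists_prime_of D₀ e M hf
    have hp : Prime (e.symm q) := (MulEquiv.prime_iff (e.symm : (ZMod l)[X] ≃* D₀)).2 hq
    refine ⟨e.symm q, l, hqM, ?_, hb _ hp, hl.two_le, ?_⟩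
    · intro h0
      apply hp.ne_zero
      exact Subtype.ext h0
    · have h1 : ((l : (ZMod l)[X])) = 0 := CharP.cast_eq_zero _ l
      have h2 : (l : D₀) = 0 := by rw [← map_natCast e.symm l, h1, map_zero]
      have h3 : (l : D) = 0 := by rw [← map_natCast D₀.subtype l, h2, map_zero]
      rw [h3]
      exact dvd_zero _

theorem prime_finite (h : IsADDB D) (M : Ideal D) (hM : M.IsPrime) (hne : M ≠ ⊥) :
    Finite (D ⧸ M) := by
  obtain ⟨M1, hM1, hle⟩ := M.exists_le_maximal hM.ne_top
  have hdvr := h.almost_dedekind M1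
  obtain ⟨w, hw, hw1, -⟩ := local_data M1
  obtain ⟨d, hdM, hd0⟩ := Submodule.exists_mem_ne_zero_of_ne_bot hne
  obtain ⟨k, a, s, ha, hs, hk⟩ := hw1 d hd0
  have hwM : w ∈ M := by
    have h1 : a * w ^ k ∈ M := by rw [← hk]; exact M.mul_mem_left _ hdM
    rcases hM.mem_or_mem h1 with h2 | h2
    · exact absurd (hle h2) ha
    · exact hM.mem_of_pow_mem _ h2
  have heq : M = M1 := by
    refine le_antisymm hle fun x hx => ?_
    by_cases hx0 : x = 0
    · rw [hx0]; exact zero_mem _
    obtain ⟨k', a', s', ha', hs', hk'⟩ := hw1 x hx0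
    have hk0 : k' ≠ 0 := by
      rintro rfl
      rw [pow_zero, mul_one] at hk'
      exact ha' (hk' ▸ M1.mul_mem_left _ hx)
    have h1 : s' * x ∈ M := by
      rw [hk']
      exact M.mul_mem_left _ (M.pow_mem_of_mem hwM k' (Nat.pos_of_ne_zero hk0))
    rcases hM.mem_or_mem h1 with h2 | h2
    · exact absurd (hle h2) hs'
    · exact h2
  rw [heq]
  exact h.finite_residue M1 hM1

theorem integrallyClosed (h : IsADDB D) : IsIntegrallyClosed D :=
  IsIntegrallyClosed.of_localization_maximal fun M _ hM => by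
    have := h.almost_dedekind M
    infer_instance

end prime

section frac

variable (D K A : Type*) [CommRing D] [IsDomain D] [IsIntegrallyClosed D]
    [Field K] [Algebra D K] [IsFractionRing D K] [Ring A] [Nontrivial A] [Algebra D A]
    [Module.Finite D A] [Module.IsTorsionFree D A]

theorem map_mem (G : D[X]) : G.map (algebraMap D K) ∈ IntK D K A := by
  intro a
  rw [aeval_map_algebraMap, aeval_algHom_apply]
  exact ⟨_, rfl⟩

theorem isFrac : IsFractionRing (IntK D K A) (RatFunc K) := by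
  have hinj : Function.Injective (algebraMap (IntK D K A) (RatFunc K)) := by
    have h1 : Function.Injective (algebraMap K[X] (RatFunc K)) :=
      IsFractionRing.injective K[X] (RatFunc K)
    exact h1.comp Subtype.val_injective
  have : FaithfulSMul (IntK D K A) (RatFunc K) :=
    (faithfulSMul_iff_algebraMap_injective _ _).2 hinj
  have hclear : ∀ g : K[X], ∃ d : D, d ≠ 0 ∧ C (algebraMap D K d) * g ∈ IntK D K A := by
    intro g
    obtain ⟨b, hbm, hb⟩ := IsLocalization.integerNormalization_spec (nonZeroDivisors D) g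
    refine ⟨b, nonZeroDivisors.ne_zero hbm, ?_⟩
    have h1 : C (algebraMap D K b) * g =
        (IsLocalization.integerNormalization (nonZeroDivisors D) g).map (algebraMap D K) := by
      rw [hb, ← smul_eq_C_mul, algebraMap_smul]
    rw [h1]
    exact map_mem D K A _
  refine IsFractionRing.of_field _ _ fun z => ?_
  obtain ⟨x, y, hy, rfl⟩ := IsFractionRing.div_surjective (A := K[X]) z
  obtain ⟨c, hc0, hc⟩ := hclear x
  obtain ⟨d, hd0, hd⟩ := hclear y
  have hcK : algebraMap D K c ≠ 0 := by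
    rw [Ne, map_eq_zero_iff _ (IsFractionRing.injective D K)]; exact hc0
  have hdK : algebraMap D K d ≠ 0 := by
    rw [Ne, map_eq_zero_iff _ (IsFractionRing.injective D K)]; exact hd0
  have hCmem : ∀ d : D, C (algebraMap D K d) ∈ IntK D K A := fun d => by
    have := map_mem D K A (C d)
    rwa [map_C] at this
  refine ⟨⟨_, mul_mem (hCmem d) hc⟩, ⟨_, mul_mem (hCmem c) hd⟩, ?_⟩
  change algebraMap K[X] (RatFunc K) x / algebraMap K[X] (RatFunc K) y =
    algebraMap K[X] (RatFunc K) (C (algebraMap D K d) * (C (algebraMap D K c) * x)) /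
    algebraMap K[X] (RatFunc K) (C (algebraMap D K c) * (C (algebraMap D K d) * y))
  have h1 : algebraMap K[X] (RatFunc K) (C (algebraMap D K c)) ≠ 0 := by
    rw [Ne, map_eq_zero_iff _ (IsFractionRing.injective K[X] (RatFunc K)), C_eq_zero]
    exact hcK
  have h2 : algebraMap K[X] (RatFunc K) (C (algebraMap D K d)) ≠ 0 := by
    rw [Ne, map_eq_zero_iff _ (IsFractionRing.injective K[X] (RatFunc K)), C_eq_zero]
    exact hdK
  have h3 : algebraMap K[X] (RatFunc K) y ≠ 0 := by
    rw [Ne, map_eq_zero_iff _ (IsFractionRing.injective K[X] (RatFunc K))]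
    exact nonZeroDivisors.ne_zero hy
  simp only [map_mul]
  field_simp

theorem mem_of_closed (hcl : IsIntegrallyClosed (IntK D K A)) (f : K[X])
    (hf : f ∈ IntKPrime D K A) : f ∈ IntK D K A := by
  have := isFrac D K A
  have h1 : IsIntegral (IntK D K A) (algebraMap K[X] (RatFunc K) f) :=
    (main D K A _).2 ⟨f, hf, rfl⟩
  obtain ⟨y, hy⟩ := (isIntegrallyClosed_iff (RatFunc K)).1 hcl h1
  have h2 : algebraMap K[X] (RatFunc K) (y : K[X]) = algebraMap K[X] (RatFunc K) f := hy
  rw [← IsFractionRing.injective K[X] (RatFunc K) h2]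
  exact y.2

theorem closed_of_mem (h : ∀ b : K ⊗[D] A, IsIntegral D b → b ∈ (inc D K A).range) :
    IsIntegrallyClosed (IntK D K A) := by
  have := isFrac D K A
  rw [isIntegrallyClosed_iff (RatFunc K)]
  intro x hx
  obtain ⟨f, hf, rfl⟩ := (main D K A x).1 hx
  exact ⟨⟨f, fun a => h _ (hf a)⟩, rfl⟩

end frac

end Pool.Agent.H17Sv
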