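import Pool.Agent.H17Sv.G

set_option autoImplicit false
set_option linter.unusedSectionVars false
set_option linter.unusedVariables false

open Polynomial TensorProduct Pool.Agent.V113.IntK

namespace Pool.Agent.H17Sv

variable {D K A : Type*} [CommRing D] [IsDomain D] [Field K] [Algebra D K] [IsFractionRing D K]
  [Ring A] [Nontrivial A] [Algebra D A] [Module.Finite D A] [Module.IsTorsionFree D A]

/-- a fixed power of `p` brings all polynomials in `b` into `A` -/
theorem pow_smul_mem {D B : Type*} [CommRing D] [Nontrivial D] [Ring B] [Algebra D B] (S : Subalgebra D B)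
    (p : D) (k n : ℕ) (b : B) (hb : p ^ k • b ∈ S) (χ : D[X]) (hχ : χ.Monic)
    (hn : χ.natDegree = n) (h0 : aeval b χ = 0) (Q : D[X]) :
    p ^ (k * n) • aeval b Q ∈ S := by

  have h1 : aeval b Q = aeval b (Q %ₘ χ) := by
    conv_lhs => rw [← modByMonic_add_div Q χ]
    rw [map_add, map_mul, h0, zero_mul, add_zero]
  rw [h1, aeval_eq_sum_range, Finset.smul_sum]
  refine sum_mem fun i hi => ?_
  by_cases hin : i ≤ n
  · have h2 : p ^ (k * n) • ((Q %ₘ χ).coeff i • b ^ i) =
        ((Q %ₘ χ).coeff i * p ^ (k * (n - i))) • (p ^ k • b) ^ i := by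
      rw [_root_.smul_pow, smul_smul, smul_smul, ← pow_mul]
      congr 1
      have : k * n = k * (n - i) + k * i := by rw [← mul_add]; congr 1; omega
      rw [this, pow_add]
      ring
    rw [h2]
    exact S.smul_mem (pow_mem hb i) _
  · have h2 : (Q %ₘ χ).coeff i = 0 := by
      apply coeff_eq_zero_of_degree_lt
      refine (degree_modByMonic_lt Q hχ).trans ?_
      rw [degree_eq_natDegree hχ.ne_zero, hn]
      exact_mod_cast not_le.1 hin
    rw [h2, zero_smul, smul_zero]
    exact zero_mem _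

theorem mem_range_of_closed (h : IsADDB D) (hcl : IsIntegrallyClosed (IntK D K A))
    (b : K ⊗[D] A) (hb : IsIntegral D b) : b ∈ (inc D K A).range := by
  have hic := integrallyClosed h
  by_contra hbn
  obtain ⟨⟨a, c⟩, hac⟩ : ∃ x : A × nonZeroDivisors D, x.2 • b = inc D K A x.1 := by
    have h2 : IsLocalizedModule (nonZeroDivisors D) (TensorProduct.mk D K A 1) :=
      (isLocalizedModule_iff_isBaseChange (nonZeroDivisors D) K _).2
        (TensorProduct.isBaseChange D A K)
    exact IsLocalizedModule.surj (nonZeroDivisors D) (TensorProduct.mk D K A 1) b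
  have hac' : (c : D) • b = inc D K A a := hac
  have hc0 : (c : D) ≠ 0 := nonZeroDivisors.coe_ne_zero c
  let I : Ideal D :=
    (Subalgebra.toSubmodule (inc D K A).range).comap (LinearMap.toSpanSingleton D (K ⊗[D] A) b)
  have hI : ∀ d : D, d ∈ I ↔ d • b ∈ (inc D K A).range := fun d => Iff.rfl
  have hItop : I ≠ ⊤ := by
    intro hI1
    apply hbn
    have : (1 : D) ∈ I := by rw [hI1]; trivial
    rw [hI, one_smul] at this
    exact this
  obtain ⟨M, hM, hIM⟩ := I.exists_le_maximal hItop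
  have hcI : (c : D) ∈ I := by rw [hI, hac']; exact ⟨a, rfl⟩
  obtain ⟨p, l, hpM, hp0, hbd, hl, hpl⟩ := exists_p h M
  have hdvr := h.almost_dedekind M
  obtain ⟨w, hw, hw1, -⟩ := local_data M
  obtain ⟨k, a1, s1, ha1, hs1, h1⟩ := hw1 c hc0
  obtain ⟨e, a2, s2, ha2, hs2, h2⟩ := hw1 p hp0
  have he : e ≠ 0 := by
    rintro rfl
    rw [pow_zero, mul_one] at h2
    exact ha2 (h2 ▸ M.mul_mem_left _ hpM)
  obtain ⟨e', rfl⟩ := Nat.exists_eq_succ_of_ne_zero he
  have hMp : M.IsPrime := hM.isPrime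
  set s := a1 * s2 ^ k with hs
  have hsM : s ∉ M := by
    intro h3
    rcases hMp.mem_or_mem h3 with h4 | h4
    · exact ha1 h4
    · exact hs2 (hMp.mem_of_pow_mem _ h4)
  have hsI : s * p ^ k ∈ I := by
    have h3 : s * p ^ k = (a2 ^ k * w ^ (e' * k) * s1) * c := by
      calc s * p ^ k = a1 * (s2 * p) ^ k := by rw [hs, mul_pow]; ring
        _ = a2 ^ k * w ^ (e' * k) * (a1 * w ^ k) := by
          rw [h2, mul_pow, ← pow_mul, Nat.succ_mul, pow_add]; ring
        _ = _ := by rw [← h1]; ring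
    rw [h3]
    exact I.mul_mem_left _ hcI
  set b1 := s • b with hb1
  have hb1i : IsIntegral D b1 := by
    obtain ⟨χ, hχ, hχ0⟩ := hb
    have h3 : IsIntegral D (algebraMap D (K ⊗[D] A) s * b) := by
      refine ⟨χ.scaleRoots s, (monic_scaleRoots_iff s).2 hχ, ?_⟩
      exact scaleRoots_aeval_eq_zero hχ0
    rwa [← Algebra.smul_def] at h3
  have hb1m : p ^ k • b1 ∈ (inc D K A).range := by
    rw [hb1, smul_smul, mul_comm, ← hI]
    exact hsI
  obtain ⟨χ, hχm, hχd, hχ0⟩ := exists_char (D := D) (K := K) b1 hb1i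
  obtain ⟨f, hf, q, hq⟩ := exists_poly (D := D) (K := K) (AlgebraicClosure K) (A := A)
    (fun M _ => h.almost_dedekind M) (prime_finite h) p hp0 hbd l hl hpl k
    (k * Module.finrank K (K ⊗[D] A))
  have hfI := mem_of_closed D K A hcl f hf
  obtain ⟨a0, ha0⟩ := hb1m
  have ha0' : inc D K A a0 = p ^ k • b1 := ha0
  have h3 : aeval (inc D K A a0) f ∈ (inc D K A).range := hfI a0
  set M' := k * Module.finrank K (K ⊗[D] A) with hM'
  have h4 : aeval (inc D K A a0) f = b1 - p ^ M' • aeval b1 (X * q) := by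
    have h5 := congrArg (aeval b1) hq
    rw [aeval_comp] at h5
    simp only [map_mul, map_sub, map_one, aeval_C, aeval_X, aeval_map_algebraMap] at h5
    rw [ha0']
    have h6 : algebraMap K (K ⊗[D] A) (algebraMap D K p ^ k) * b1 = p ^ k • b1 := by
      rw [← map_pow, ← IsScalarTower.algebraMap_apply, ← Algebra.smul_def]
    have h7 : algebraMap K (K ⊗[D] A) (algebraMap D K p ^ M') = algebraMap D _ (p ^ M') := by
      rw [← map_pow, ← IsScalarTower.algebraMap_apply]
    rw [h6, h7] at h5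
    rw [h5, mul_sub, mul_one, ← mul_assoc, ← Algebra.commutes, mul_assoc, ← Algebra.smul_def,
      map_mul, aeval_X]
  have h5 : p ^ M' • aeval b1 (X * q) ∈ (inc D K A).range :=
    pow_smul_mem _ p k _ b1 (by rw [← ha0']; exact ⟨a0, rfl⟩) χ hχm hχd hχ0 _
  have h6 : b1 ∈ (inc D K A).range := by
    have : b1 = aeval (inc D K A a0) f + p ^ M' • aeval b1 (X * q) := by rw [h4]; abel
    rw [this]
    exact add_mem h3 h5
  exact hsM (hIM ((hI s).2 h6))

end Pool.Agent.H17Sv
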