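import Pool.Agent.H17Sv.H

set_option autoImplicit false
set_option linter.unusedSectionVars false
set_option linter.unusedVariables false

open Polynomial TensorProduct Pool.Agent.V113.IntK

namespace Pool.Agent.H17Sv

section pts

variable {D K : Type*} {A : Type*} [CommRing D] [IsDomain D] [IsIntegrallyClosed D] [Field K]
  [Algebra D K] [IsFractionRing D K] [Ring A] [Nontrivial A] [Algebra D A] [Module.Finite D A]
  [Module.IsTorsionFree D A] (L : Type*) [Field L] [IsAlgClosed L] [Algebra K L] [Algebra D L]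
  [IsScalarTower D K L]

theorem exists_min (b : K ⊗[D] A) (hb : IsIntegral D b) :
    ∃ χ : D[X], χ.Monic ∧ χ.map (algebraMap D K) = minpoly K b := by
  obtain ⟨h, hh, hh0⟩ := hb
  have hbK : IsIntegral K b := IsIntegral.of_finite K b
  have h1 : minpoly K b ∣ h.map (algebraMap D K) := by
    apply minpoly.dvd
    rw [aeval_map_algebraMap]
    exact hh0
  obtain ⟨g, hg⟩ := IsIntegrallyClosed.eq_map_mul_C_of_dvd K hh h1
  rw [(minpoly.monic hbK).leadingCoeff, C_1, mul_one] at hg
  refine ⟨g, ?_, hg⟩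
  apply monic_of_injective (IsFractionRing.injective D K)
  rw [hg]
  exact minpoly.monic hbK

theorem pt_deg (a : A) (r : L) (hr : aeval r (minpoly K (inc D K A a)) = 0) :
    IsIntegral K r ∧ (minpoly K r).natDegree ≤ Module.finrank K (K ⊗[D] A) := by
  have hbK : IsIntegral K (inc D K A a) := IsIntegral.of_finite K _
  have hm := minpoly.monic hbK
  refine ⟨⟨_, hm, hr⟩, ?_⟩
  refine (natDegree_le_natDegree (minpoly.degree_le_of_ne_zero K r hm.ne_zero hr)).trans ?_
  obtain ⟨χ, hχm, hχd, hχ⟩ := exists_char (D := D) (K := K) (inc D K A a)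
    ((IsIntegral.of_finite D a).map (inc D K A))
  have h1 : aeval (inc D K A a) (χ.map (algebraMap D K)) = 0 := by
    rw [aeval_map_algebraMap]; exact hχ
  rw [← hχd, ← natDegree_map_eq_of_injective (IsFractionRing.injective D K) χ]
  exact natDegree_le_natDegree (minpoly.degree_le_of_ne_zero K _ (hχm.map _).ne_zero h1)

theorem mem_of_pts (hfull : ∀ b : K ⊗[D] A, IsIntegral D b → b ∈ (inc D K A).range) (F : K[X])
    (hF : ∀ (a : A) (r : L), aeval r (minpoly K (inc D K A a)) = 0 → IsIntegral D (aeval r F)) :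
    F ∈ IntK D K A := by
  intro a
  apply hfull
  obtain ⟨χ, hχm, hχ⟩ := exists_min (D := D) (K := K) (inc D K A a)
    ((IsIntegral.of_finite D a).map (inc D K A))
  refine integral_of_roots (L := L) χ hχm _ ?_ F fun r hr => hF a r ?_
  · rw [← aeval_map_algebraMap K, hχ]
    exact minpoly.aeval K _
  · rw [← hχ, aeval_map_algebraMap]
    exact hr

theorem pt_integral (f : IntK D K A) (a : A) (r : L)
    (hr : aeval r (minpoly K (inc D K A a)) = 0) : IsIntegral D (aeval r (f : K[X])) := by
  obtain ⟨a', ha'⟩ := f.2 a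
  have h1 : IsIntegral D (aeval (inc D K A a) (f : K[X])) := by
    rw [← ha']
    exact (IsIntegral.of_finite D a').map (inc D K A)
  obtain ⟨φ, hφ, h0⟩ := h1
  refine ⟨φ, hφ, ?_⟩
  have h2 : aeval (inc D K A a) (aeval (f : K[X]) φ) = 0 := by
    rw [← AlgHom.restrictScalars_apply D (aeval (inc D K A a) : K[X] →ₐ[K] K ⊗[D] A),
      ← aeval_algHom_apply]
    exact h0
  obtain ⟨q, hq⟩ := minpoly.dvd K _ h2
  have h3 : aeval r (aeval (f : K[X]) φ) = 0 := by rw [hq, map_mul, hr, zero_mul]
  rw [← AlgHom.restrictScalars_apply D (aeval r : K[X] →ₐ[K] L), ← aeval_algHom_apply] at h3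
  exact h3

include L in
theorem step (hDVR : ∀ (M : Ideal D) [M.IsMaximal],
      IsDiscreteValuationRing (Localization.AtPrime M))
    (hfin : ∀ M : Ideal D, M.IsPrime → M ≠ ⊥ → Finite (D ⧸ M)) (p : D) (hp0 : p ≠ 0)
    (hb : BoundedAt p) (l : ℕ) (hl : 2 ≤ l) (hpl : p ∣ (l : D))
    (hfull : ∀ b : K ⊗[D] A, IsIntegral D b → b ∈ (inc D K A).range) :
    ∃ E N' : ℕ, 1 ≤ E ∧ 1 ≤ N' ∧ ∀ (f t h : IntK D K A) (j : ℕ),
      t * f ^ E = algebraMap D (IntK D K A) p ^ j * h →
      algebraMap D (IntK D K A) p ∣ t * h * (t ^ N' - h ^ N') := by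
  obtain ⟨c, hc⟩ := hb
  obtain ⟨n, hn⟩ : ∃ n, n = Module.finrank K (K ⊗[D] A) := ⟨_, rfl⟩
  obtain ⟨E, hE⟩ : ∃ E, E = n.factorial * c.factorial := ⟨_, rfl⟩
  obtain ⟨N', hN'⟩ : ∃ N', N' = (c ^ n).factorial * l ^ E := ⟨_, rfl⟩
  have hE1 : 1 ≤ E := by rw [hE]; exact Nat.mul_pos (Nat.factorial_pos _) (Nat.factorial_pos _)
  have hN1 : 1 ≤ N' := by
    rw [hN']; exact Nat.mul_pos (Nat.factorial_pos _) (Nat.pow_pos (by omega))
  refine ⟨E, N', hE1, hN1, ?_⟩
  intro f t h j heq
  have hPne : algebraMap D K p ≠ 0 := by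
    rw [Ne, map_eq_zero_iff _ (IsFractionRing.injective D K)]; exact hp0
  have hpL : algebraMap D L p ≠ 0 := by
    rw [IsScalarTower.algebraMap_apply D K L, Ne, map_eq_zero]; exact hPne
  set F : K[X] := C ((algebraMap D K p)⁻¹) * (t * h * (t ^ N' - h ^ N') : K[X]) with hF
  have halg : ((algebraMap D (IntK D K A) p : IntK D K A) : K[X]) = C (algebraMap D K p) := rfl
  have hmem : F ∈ IntK D K A := by
    refine mem_of_pts L hfull F fun a r hr => integral_of_val (D := D) _ fun W hW => ?_
    obtain ⟨hrK, hrn⟩ := pt_deg L a r hr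
    obtain ⟨zt, hzt⟩ : ∃ z, z = aeval r (t : K[X]) := ⟨_, rfl⟩
    obtain ⟨zh, hzh⟩ : ∃ z, z = aeval r (h : K[X]) := ⟨_, rfl⟩
    obtain ⟨zf, hzf⟩ : ∃ z, z = aeval r (f : K[X]) := ⟨_, rfl⟩
    have htv : W.valuation zt ≤ 1 := by
      rw [hzt, W.valuation_le_one_iff]
      exact mem_of_integral W hW _ (pt_integral L t a r hr)
    have hhv : W.valuation zh ≤ 1 := by
      rw [hzh, W.valuation_le_one_iff]
      exact mem_of_integral W hW _ (pt_integral L h a r hr)
    have hfv : W.valuation zf ≤ 1 := by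
      rw [hzf, W.valuation_le_one_iff]
      exact mem_of_integral W hW _ (pt_integral L f a r hr)
    have heqr : zt * zf ^ E = algebraMap D L p ^ j * zh := by
      have h1 := congrArg (fun x : IntK D K A => aeval r (x : K[X])) heq
      simp only [MulMemClass.coe_mul, SubmonoidClass.coe_pow, halg, map_mul, map_pow, aeval_C,
        ← IsScalarTower.algebraMap_apply] at h1
      rw [hzt, hzf, hzh]
      exact h1
    have hFr : aeval r F = (algebraMap D L p)⁻¹ * (zt * zh * (zt ^ N' - zh ^ N')) := by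
      rw [hF, hzt, hzh]
      simp only [map_mul, map_sub, map_pow, aeval_C, map_inv₀, ← IsScalarTower.algebraMap_apply]
    have hdv : W.valuation (zt ^ N' - zh ^ N') ≤ 1 :=
      (W.valuation.map_sub _ _).trans (max_le (by rw [map_pow]; exact pow_le_one' htv _)
        (by rw [map_pow]; exact pow_le_one' hhv _))
    obtain ⟨π, hπ⟩ : ∃ π, π = W.valuation (algebraMap D L p) := ⟨_, rfl⟩
    have hπ0 : π ≠ 0 := by rw [hπ]; exact (Valuation.ne_zero_iff _).2 hpL
    rw [← W.valuation_le_one_iff, hFr, map_mul, map_inv₀, ← hπ, mul_comm, ← div_eq_mul_inv,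
      div_le_one₀ (zero_lt_iff.2 hπ0)]
    by_cases hp1 : W.valuation (algebraMap D L p) < 1
    · by_cases hzf0 : zf = 0
      · rw [hzf0, zero_pow (by omega), mul_zero] at heqr
        have : zh = 0 := by
          rcases mul_eq_zero.1 heqr.symm with h2 | h2
          · exact absurd h2 (pow_ne_zero _ hpL)
          · exact h2
        rw [this, mul_zero, zero_mul, map_zero]
        exact zero_le
      have hmemf : zf ∈ IntermediateField.adjoin K {r} := by
        rw [hzf, aeval_eq_sum_range]
        refine sum_mem fun i _ => ?_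
        exact (IntermediateField.adjoin K {r}).smul_mem
          (pow_mem (IntermediateField.mem_adjoin_simple_self K r) _)
      obtain ⟨hfi, hfn⟩ := deg_adjoin r zf _ hrK hrn hmemf
      rw [← hn] at hfn
      obtain ⟨⟨a', ha'⟩, hfact⟩ := facts hDVR hfin p hp0 c hc l hl hpl n W hW hp1 zf hzf0 hfi hfn
        hfv
      rw [← hE, ← hπ] at ha'
      rw [← hπ] at hp1
      have hvv : W.valuation zt * π ^ a' = π ^ j * W.valuation zh := by
        have h1 := congrArg W.valuation heqr
        rwa [map_mul, map_mul, map_pow, map_pow, ha', ← hπ] at h1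
      rcases lt_trichotomy a' j with hlt | heq' | hgt
      · -- `t` is divisible by `p`
        have h1 : W.valuation zt ≤ π := by
          obtain ⟨d, hd⟩ : ∃ d, j = a' + (d + 1) := ⟨j - a' - 1, by omega⟩
          rw [hd, pow_add, mul_comm (π ^ a'), mul_assoc, mul_comm (π ^ a'), ← mul_assoc] at hvv
          have h2 := mul_right_cancel₀ (pow_ne_zero _ hπ0) hvv
          rw [h2, pow_succ]
          calc π ^ d * π * W.valuation zh ≤ 1 * π * 1 :=
                mul_le_mul' (mul_le_mul' (pow_le_one' hp1.le _) le_rfl) hhv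
            _ = π := by rw [one_mul, mul_one]
        rw [map_mul, map_mul]
        calc W.valuation zt * W.valuation zh * W.valuation (zt ^ N' - zh ^ N') ≤ π * 1 * 1 :=
              mul_le_mul' (mul_le_mul' h1 hhv) hdv
          _ = π := by rw [mul_one, mul_one]
      · have h1 := hfact j 1 E (by rw [← hE, ← hπ, ha', heq']) (by rw [← hE]; omega)
        rw [← hE, ← hN', pow_one, ← hπ] at h1
        have h2 : zh = zt * ((algebraMap D L p ^ j)⁻¹ * zf ^ E) := by
          rw [mul_left_comm, heqr, ← mul_assoc, inv_mul_cancel₀ (pow_ne_zero _ hpL), one_mul]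
        have h3 : W.valuation (zt ^ N' - zh ^ N') ≤ π := by
          have h4 : zt ^ N' - zh ^ N' =
              zt ^ N' * (1 - ((algebraMap D L p ^ j)⁻¹ * zf ^ E) ^ N') := by
            nth_rw 1 [h2]
            rw [mul_pow zt]
            ring
          rw [h4, map_mul, map_pow, Valuation.map_sub_swap]
          exact (mul_le_of_le_one_left' (pow_le_one' htv _)).trans h1
        rw [map_mul, map_mul]
        calc W.valuation zt * W.valuation zh * W.valuation (zt ^ N' - zh ^ N') ≤ 1 * 1 * π :=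
              mul_le_mul' (mul_le_mul' htv hhv) h3
          _ = π := by rw [one_mul, one_mul]
      · have h1 : W.valuation zh ≤ π := by
          obtain ⟨d, hd⟩ : ∃ d, a' = j + (d + 1) := ⟨a' - j - 1, by omega⟩
          rw [hd, pow_add, mul_left_comm] at hvv
          have h2 := mul_left_cancel₀ (pow_ne_zero _ hπ0) hvv
          rw [← h2, pow_succ]
          calc W.valuation zt * (π ^ d * π) ≤ 1 * (1 * π) :=
                mul_le_mul' htv (mul_le_mul' (pow_le_one' hp1.le _) le_rfl)
            _ = π := by rw [one_mul, one_mul]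
        rw [map_mul, map_mul]
        calc W.valuation zt * W.valuation zh * W.valuation (zt ^ N' - zh ^ N') ≤ 1 * π * 1 :=
              mul_le_mul' (mul_le_mul' htv h1) hdv
          _ = π := by rw [mul_one, one_mul]
    · have hp2 : π = 1 := by
        rw [hπ]
        exact le_antisymm ((W.valuation_le_one_iff _).2 (hW p)) (not_lt.1 hp1)
      rw [hp2, map_mul, map_mul]
      calc W.valuation zt * W.valuation zh * W.valuation (zt ^ N' - zh ^ N') ≤ 1 * 1 * 1 :=
            mul_le_mul' (mul_le_mul' htv hhv) hdv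
        _ = 1 := by rw [mul_one, mul_one]
  refine ⟨⟨F, hmem⟩, Subtype.ext ?_⟩
  simp only [MulMemClass.coe_mul, halg, AddSubgroupClass.coe_sub, SubmonoidClass.coe_pow]
  rw [hF, ← mul_assoc, ← C_mul, mul_inv_cancel₀ hPne, C_1, one_mul]

end pts

end Pool.Agent.H17Sv
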