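import Pool.Agent.H17Sv.I

set_option autoImplicit false
set_option linter.unusedSectionVars false
set_option linter.unusedVariables false

open Polynomial TensorProduct Pool.Agent.V113.IntK

namespace Pool.Agent.H17Sv

/-- A Prüfer domain: all localizations at prime ideals are valuation rings. -/
def IsPruefer (R : Type*) [CommRing R] [IsDomain R] : Prop :=
  ∀ (Q : Ideal R) [Q.IsPrime], ValuationRing (Localization.AtPrime Q)

section ring

variable {R : Type*} [CommRing R] [IsDomain R]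

theorem valuationRing_of (Q : Ideal R) [Q.IsPrime]
    (h : ∀ f g : R, ∃ t ∉ Q, f ∣ t * g ∨ g ∣ t * f) :
    ValuationRing (Localization.AtPrime Q) := by
  have key : ∀ (f g t w : R) (s1 s2 : Q.primeCompl), t ∉ Q → t * g = f * w →
      ∃ c, IsLocalization.mk' (Localization.AtPrime Q) f s1 * c =
        IsLocalization.mk' (Localization.AtPrime Q) g s2 := by
    intro f g t w s1 s2 ht hw
    refine ⟨IsLocalization.mk' (Localization.AtPrime Q) (s1 * w) (⟨t, ht⟩ * s2), ?_⟩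
    rw [← IsLocalization.mk'_mul, IsLocalization.mk'_eq_iff_eq]
    congr 1
    simp only [Submonoid.coe_mul]
    linear_combination (-(s1 : R) * s2) * hw
  refine { cond' := ?_ }
  intro a b
  obtain ⟨⟨f, s1⟩, rfl⟩ := IsLocalization.mk'_surjective Q.primeCompl a
  obtain ⟨⟨g, s2⟩, rfl⟩ := IsLocalization.mk'_surjective Q.primeCompl b
  obtain ⟨t, ht, ⟨w, hw⟩ | ⟨w, hw⟩⟩ := h f g
  · obtain ⟨c, hc⟩ := key f g t w s1 s2 ht hw
    exact ⟨c, Or.inl hc⟩
  · obtain ⟨c, hc⟩ := key g f t w s2 s1 ht hw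
    exact ⟨c, Or.inr hc⟩

/-- the induction: up to elements outside `Q`, `f ^ E` is `p ^ j` times a unit or divisible by
`p ^ m` -/
theorem chain (Q : Ideal R) [hQ : Q.IsPrime] (p : R) (E N' : ℕ) (hN : 1 ≤ N')
    (hs : ∀ (f t h : R) (j : ℕ), t * f ^ E = p ^ j * h → p ∣ t * h * (t ^ N' - h ^ N'))
    (f : R) (m : ℕ) : ∃ (j : ℕ) (t h : R), j ≤ m ∧ t ∉ Q ∧ t * f ^ E = p ^ j * h ∧
      (j = m ∨ h ∉ Q) := by
  induction m with
  | zero => exact ⟨0, 1, f ^ E, le_rfl, fun h => hQ.ne_top ((Ideal.eq_top_iff_one Q).2 h),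
      by ring, Or.inl rfl⟩
  | succ m ih =>
    obtain ⟨j, t, h, hj, ht, heq, hor⟩ := ih
    by_cases hh : h ∈ Q
    · obtain rfl : j = m := hor.resolve_right (fun h' => h' hh)
      obtain ⟨h', hh'⟩ := hs f t h j heq
      refine ⟨j + 1, t * t * (t ^ N' - h ^ N'), h', le_rfl, ?_, ?_, Or.inl rfl⟩
      · intro hmem
        rcases hQ.mem_or_mem hmem with h1 | h1
        · rcases hQ.mem_or_mem h1 with h2 | h2 <;> exact ht h2
        · have h2 : t ^ N' ∈ Q := by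
            have := Q.add_mem h1 (Q.pow_mem_of_mem hh N' hN)
            rwa [sub_add_cancel] at this
          exact ht (hQ.mem_of_pow_mem _ h2)
      · rw [pow_succ]
        linear_combination (t * (t ^ N' - h ^ N')) * heq + p ^ j * hh'
    · exact ⟨j, t, h, by omega, ht, heq, Or.inr hh⟩

theorem core [IsIntegrallyClosed R] (Q : Ideal R) [hQ : Q.IsPrime] (p : R) (hp0 : p ≠ 0)
    (hpQ : p ∈ Q) (E N' : ℕ) (hE : 1 ≤ E) (hN : 1 ≤ N')
    (hs : ∀ (f t h : R) (j : ℕ), t * f ^ E = p ^ j * h → p ∣ t * h * (t ^ N' - h ^ N'))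
    (F G x y s : R) (k : ℕ) (hsQ : s ∉ Q) (hxy : x * F + y * G = s * p ^ k) :
    ∃ t ∉ Q, F ∣ t * G ∨ G ∣ t * F := by
  obtain ⟨m, hm⟩ : ∃ m, m = k * (2 * E) + 1 := ⟨_, rfl⟩
  obtain ⟨j1, t1, h1, hj1, ht1, e1, o1⟩ := chain Q p E N' hN hs F m
  obtain ⟨j2, t2, h2, hj2, ht2, e2, o2⟩ := chain Q p E N' hN hs G m
  have hnot : h1 ∉ Q ∨ h2 ∉ Q := by
    by_contra hcon
    push Not at hcon
    have hj1' : j1 = m := o1.resolve_right (fun h => h hcon.1)
    have hj2' : j2 = m := o2.resolve_right (fun h => h hcon.2)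
    rw [hj1'] at e1
    rw [hj2'] at e2
    have h3 : (x * F + y * G) ^ (2 * E) ∈ Ideal.span {F ^ E, G ^ E} := by
      refine Ideal.add_pow_mem_of_pow_mem_of_le _ (m := E) (n := E) ?_ ?_ (by omega)
      · rw [mul_pow]
        exact Ideal.mul_mem_left _ _ (Ideal.subset_span (by simp))
      · rw [mul_pow]
        exact Ideal.mul_mem_left _ _ (Ideal.subset_span (by simp))
    obtain ⟨U, V, hUV⟩ := Ideal.mem_span_pair.1 h3
    have h4 : p ^ m * (U * t2 * h1 + V * t1 * h2) =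
        p ^ (k * (2 * E)) * (t1 * t2 * s ^ (2 * E)) := by
      have h5 : (x * F + y * G) ^ (2 * E) = s ^ (2 * E) * p ^ (k * (2 * E)) := by
        rw [hxy, mul_pow, ← pow_mul]
      rw [h5] at hUV
      linear_combination (-(U * t2)) * e1 - (V * t1) * e2 + (t1 * t2) * hUV
    rw [hm, pow_succ, mul_assoc] at h4
    have h6 := mul_left_cancel₀ (pow_ne_zero _ hp0) h4
    have h7 : t1 * t2 * s ^ (2 * E) ∈ Q := by rw [← h6]; exact Q.mul_mem_right _ hpQ
    rcases hQ.mem_or_mem h7 with h8 | h8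
    · rcases hQ.mem_or_mem h8 with h9 | h9
      · exact ht1 h9
      · exact ht2 h9
    · exact hsQ (hQ.mem_of_pow_mem _ h8)
  have fin : ∀ (F G t1 t2 h1 h2 : R) (j1 j2 : ℕ), t2 ∉ Q → h1 ∉ Q → j1 ≤ j2 →
      t1 * F ^ E = p ^ j1 * h1 → t2 * G ^ E = p ^ j2 * h2 → ∃ t ∉ Q, F ∣ t * G := by
    intro F G t1 t2 h1 h2 j1 j2 ht2 hh1 hj e1 e2
    refine ⟨h1 * t2, fun h => (hQ.mem_or_mem h).elim hh1 ht2, ?_⟩
    rw [← IsIntegrallyClosed.pow_dvd_pow_iff (n := E) (by omega)]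
    obtain ⟨d, rfl⟩ := Nat.exists_eq_add_of_le hj
    have h3 : (h1 * t2) * G ^ E = F ^ E * (t1 * p ^ d * h2) := by
      rw [pow_add] at e2
      linear_combination h1 * e2 - (p ^ d * h2) * e1
    have h4 : (h1 * t2 * G) ^ E = (h1 * t2) ^ (E - 1) * ((h1 * t2) * G ^ E) := by
      rw [mul_pow, ← mul_assoc, ← pow_succ]
      congr 2
      omega
    rw [h4, h3]
    exact ⟨(h1 * t2) ^ (E - 1) * (t1 * p ^ d * h2), by ring⟩
  have hcases : (h1 ∉ Q ∧ j1 ≤ j2) ∨ (h2 ∉ Q ∧ j2 ≤ j1) := by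
    by_cases a1 : h1 ∈ Q
    · have a2 : h2 ∉ Q := hnot.resolve_left (fun h => h a1)
      have : j1 = m := o1.resolve_right (fun h => h a1)
      exact Or.inr ⟨a2, by omega⟩
    · by_cases a2 : h2 ∈ Q
      · have : j2 = m := o2.resolve_right (fun h => h a2)
        exact Or.inl ⟨a1, by omega⟩
      · rcases le_total j1 j2 with h | h
        · exact Or.inl ⟨a1, h⟩
        · exact Or.inr ⟨a2, h⟩
  rcases hcases with ⟨a, b⟩ | ⟨a, b⟩
  · obtain ⟨t, ht, hd⟩ := fin F G t1 t2 h1 h2 j1 j2 ht2 a b e1 e2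
    exact ⟨t, ht, Or.inl hd⟩
  · obtain ⟨t, ht, hd⟩ := fin G F t2 t1 h2 h1 j2 j1 ht1 a b e2 e1
    exact ⟨t, ht, Or.inr hd⟩

end ring

end Pool.Agent.H17Sv
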