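import Pool.Agent.H17Sv.J

set_option autoImplicit false
set_option linter.unusedSectionVars false
set_option linter.unusedVariables false

open Polynomial TensorProduct Pool.Agent.V113.IntK

namespace Pool.Agent.H17Sv

theorem exists_s {D : Type*} [CommRing D] [IsDomain D] (M : Ideal D) [hM : M.IsPrime]
    [IsDiscreteValuationRing (Localization.AtPrime M)] (c p : D) (hc0 : c ≠ 0) (hp0 : p ≠ 0)
    (hpM : p ∈ M) : ∃ (s u : D) (k : ℕ), s ∉ M ∧ s * p ^ k = u * c := by
  obtain ⟨w, hw, hw1, -⟩ := local_data M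
  obtain ⟨k, a1, s1, ha1, hs1, h1⟩ := hw1 c hc0
  obtain ⟨e, a2, s2, ha2, hs2, h2⟩ := hw1 p hp0
  have he : e ≠ 0 := by
    rintro rfl
    rw [pow_zero, mul_one] at h2
    exact ha2 (h2 ▸ M.mul_mem_left _ hpM)
  obtain ⟨e', rfl⟩ := Nat.exists_eq_succ_of_ne_zero he
  refine ⟨a1 * s2 ^ k, a2 ^ k * w ^ (e' * k) * s1, k, ?_, ?_⟩
  · intro h3
    rcases hM.mem_or_mem h3 with h4 | h4
    · exact ha1 h4
    · exact hs2 (hM.mem_of_pow_mem _ h4)
  · calc a1 * s2 ^ k * p ^ k = a1 * (s2 * p) ^ k := by rw [mul_pow]; ring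
      _ = a2 ^ k * w ^ (e' * k) * (a1 * w ^ k) := by
        rw [h2, mul_pow, ← pow_mul, Nat.succ_mul, pow_add]; ring
      _ = _ := by rw [← h1]; ring

variable (D K A : Type*) [CommRing D] [IsDomain D]
    [Field K] [Algebra D K] [IsFractionRing D K] [Ring A] [Nontrivial A] [Algebra D A]
    [Module.Finite D A] [Module.IsTorsionFree D A]

theorem clear2 [IsIntegrallyClosed D] (x y : K[X]) : ∃ c : D, c ≠ 0 ∧
    C (algebraMap D K c) * x ∈ IntK D K A ∧ C (algebraMap D K c) * y ∈ IntK D K A := by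
  have hclear : ∀ g : K[X], ∃ d : D, d ≠ 0 ∧ C (algebraMap D K d) * g ∈ IntK D K A := by
    intro g
    obtain ⟨b, hbm, hb⟩ := IsLocalization.integerNormalization_spec (nonZeroDivisors D) g
    refine ⟨b, nonZeroDivisors.ne_zero hbm, ?_⟩
    have h1 : C (algebraMap D K b) * g =
        (IsLocalization.integerNormalization (nonZeroDivisors D) g).map (algebraMap D K) := by
      rw [hb, ← smul_eq_C_mul, algebraMap_smul]
    rw [h1]
    exact map_mem D K A _
  have hCmem : ∀ d : D, C (algebraMap D K d) ∈ IntK D K A := fun d => by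
    have := map_mem D K A (C d)
    rwa [map_C] at this
  obtain ⟨c, hc0, hc⟩ := hclear x
  obtain ⟨d, hd0, hd⟩ := hclear y
  refine ⟨c * d, mul_ne_zero hc0 hd0, ?_, ?_⟩
  · rw [map_mul, C_mul, mul_comm (C _), mul_assoc]
    exact mul_mem (hCmem d) hc
  · rw [map_mul, C_mul, mul_assoc]
    exact mul_mem (hCmem c) hd

theorem pruefer_of_full (h : IsADDB D)
    (hfull : ∀ b : K ⊗[D] A, IsIntegral D b → b ∈ (inc D K A).range) :
    IsPruefer (IntK D K A) := by
  classical
  have hic := integrallyClosed h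
  have hcl : IsIntegrallyClosed (IntK D K A) := closed_of_mem D K A hfull
  intro Q hQ
  apply valuationRing_of Q
  intro f g
  have h1Q : (1 : IntK D K A) ∉ Q := fun h => hQ.ne_top ((Ideal.eq_top_iff_one Q).2 h)
  by_cases hf0 : f = 0
  · exact ⟨1, h1Q, Or.inr ⟨0, by rw [hf0, mul_zero, mul_zero]⟩⟩
  by_cases hg0 : g = 0
  · exact ⟨1, h1Q, Or.inl ⟨0, by rw [hg0, mul_zero, mul_zero]⟩⟩
  have hinjR : Function.Injective (algebraMap D (IntK D K A)) := by
    intro x y hxy
    have h1 := congrArg (fun z : IntK D K A => (z : K[X])) hxy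
    have h2 : C (algebraMap D K x) = C (algebraMap D K y) := h1
    exact IsFractionRing.injective D K (C_injective h2)
  -- coprime representatives
  obtain ⟨f1, g1, a, b, hfg, hab, hf1, hg1⟩ : ∃ f1 g1 a b : K[X],
      (f : K[X]) * g1 = g * f1 ∧ a * f1 + b * g1 = 1 ∧ f1 ≠ 0 ∧ g1 ≠ 0 := by
    obtain ⟨f1, hf1⟩ := EuclideanDomain.gcd_dvd_left (f : K[X]) g
    obtain ⟨g1, hg1⟩ := EuclideanDomain.gcd_dvd_right (f : K[X]) g
    obtain ⟨d, hd⟩ : ∃ d, d = EuclideanDomain.gcd (f : K[X]) g := ⟨_, rfl⟩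
    have hbez := EuclideanDomain.gcd_eq_gcd_ab (f : K[X]) g
    obtain ⟨a, ha⟩ : ∃ a, a = EuclideanDomain.gcdA (f : K[X]) g := ⟨_, rfl⟩
    obtain ⟨b, hb⟩ : ∃ b, b = EuclideanDomain.gcdB (f : K[X]) g := ⟨_, rfl⟩
    rw [← hd, ← ha, ← hb] at hbez
    rw [← hd] at hf1 hg1
    have hfc : (f : K[X]) ≠ 0 := fun h => hf0 (Subtype.ext h)
    have hgc : (g : K[X]) ≠ 0 := fun h => hg0 (Subtype.ext h)
    have hd0 : d ≠ 0 := by
      intro h
      rw [h, zero_mul] at hf1
      exact hfc hf1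
    refine ⟨f1, g1, a, b, ?_, ?_, ?_, ?_⟩
    · rw [hf1, hg1]; ring
    · apply mul_left_cancel₀ hd0
      rw [mul_one]
      linear_combination -hbez - a * hf1 - b * hg1
    · rintro rfl
      rw [mul_zero] at hf1
      exact hfc hf1
    · rintro rfl
      rw [mul_zero] at hg1
      exact hgc hg1
  obtain ⟨c1, hc1, hF, hG⟩ := clear2 D K A f1 g1
  obtain ⟨c2, hc2, hx, hy⟩ := clear2 D K A a b
  have hCne : ∀ c : D, c ≠ 0 → C (algebraMap D K c) ≠ 0 := by
    intro c hc
    rw [Ne, C_eq_zero, map_eq_zero_iff _ (IsFractionRing.injective D K)]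
    exact hc
  set F : IntK D K A := ⟨_, hF⟩ with hFd
  set G : IntK D K A := ⟨_, hG⟩ with hGd
  set x : IntK D K A := ⟨_, hx⟩ with hxd
  set y : IntK D K A := ⟨_, hy⟩ with hyd
  have hF0 : F ≠ 0 := fun h => (mul_ne_zero (hCne c1 hc1) hf1) (congrArg Subtype.val h)
  have hG0 : G ≠ 0 := fun h => (mul_ne_zero (hCne c1 hc1) hg1) (congrArg Subtype.val h)
  have hxy : x * F + y * G = algebraMap D (IntK D K A) (c1 * c2) := by
    apply Subtype.ext
    change (C (algebraMap D K c2) * a) * (C (algebraMap D K c1) * f1) +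
      (C (algebraMap D K c2) * b) * (C (algebraMap D K c1) * g1) = C (algebraMap D K (c1 * c2))
    rw [map_mul, C_mul]
    linear_combination (C (algebraMap D K c1) * C (algebraMap D K c2)) * hab
  have hfG : f * G = g * F := by
    apply Subtype.ext
    change (f : K[X]) * (C (algebraMap D K c1) * g1) = g * (C (algebraMap D K c1) * f1)
    linear_combination (C (algebraMap D K c1)) * hfg
  obtain ⟨t, ht, hor⟩ : ∃ t ∉ Q, F ∣ t * G ∨ G ∣ t * F := by
    by_cases hc : algebraMap D (IntK D K A) (c1 * c2) ∈ Q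
    · have hMp : (Q.comap (algebraMap D (IntK D K A))).IsPrime := inferInstance
      have hcM : c1 * c2 ∈ Q.comap (algebraMap D (IntK D K A)) := hc
      have hc0 : c1 * c2 ≠ 0 := mul_ne_zero hc1 hc2
      have hne : Q.comap (algebraMap D (IntK D K A)) ≠ ⊥ := by
        intro h
        rw [h] at hcM
        exact hc0 (by simpa using hcM)
      have hMf := prime_finite h _ hMp hne
      have hMm : (Q.comap (algebraMap D (IntK D K A))).IsMaximal :=
        Ideal.Quotient.maximal_of_isField _ (Finite.isField_of_domain _)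
      have hdvr := h.almost_dedekind (Q.comap (algebraMap D (IntK D K A)))
      obtain ⟨p, l, hpM, hp0, hbd, hl, hpl⟩ := exists_p h (Q.comap (algebraMap D (IntK D K A)))
      obtain ⟨s, u, k, hs, hk⟩ := exists_s _ (c1 * c2) p hc0 hp0 hpM
      obtain ⟨E, N', hE, hN, hst⟩ := step (D := D) (K := K) (A := A) (AlgebraicClosure K)
        (fun M _ => h.almost_dedekind M) (prime_finite h) p hp0 hbd l hl hpl hfull
      refine core Q (algebraMap D (IntK D K A) p) ?_ hpM E N' hE hN hst F G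
        (algebraMap D (IntK D K A) u * x) (algebraMap D (IntK D K A) u * y)
        (algebraMap D (IntK D K A) s) k hs ?_
      · rw [Ne, map_eq_zero_iff _ hinjR]; exact hp0
      · rw [← map_pow, ← map_mul, hk, map_mul, ← hxy]
        ring
    · have : F ∉ Q ∨ G ∉ Q := by
        by_contra hcon
        push Not at hcon
        apply hc
        rw [← hxy]
        exact Q.add_mem (Q.mul_mem_left _ hcon.1) (Q.mul_mem_left _ hcon.2)
      rcases this with h1 | h1
      · exact ⟨F, h1, Or.inl ⟨G, rfl⟩⟩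
      · exact ⟨G, h1, Or.inr ⟨F, rfl⟩⟩
  refine ⟨t, ht, ?_⟩
  rcases hor with ⟨w, hw⟩ | ⟨w, hw⟩
  · refine Or.inl ⟨w, ?_⟩
    apply mul_right_cancel₀ hF0
    linear_combination f * hw - t * hfG
  · refine Or.inr ⟨w, ?_⟩
    apply mul_right_cancel₀ hG0
    linear_combination g * hw + t * hfG

end Pool.Agent.H17Sv
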